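import Pool.Agent.Results.MP_c5e1a2_co.GroebnerDegreeUnbounded

set_option autoImplicit false

/-!
# Fibres with two classes of disjoint supports

If the fibre of `u` is divided into two classes such that all members have total `D` and members
of different classes have disjoint supports, then every Markov basis has a move of degree at
least `D` and every Gröbner basis has a polynomial of degree at least `D`.
-/

namespace Pool.Agent.Y359.TM

open Finset Pool.Agent.H609R3 MvPolynomial
open Pool.Agent.Results.MP_c5e1a2_co.GroebnerDegreeUnbounded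

lemma step_same {S T : ℕ} {p p' u : Word S T → ℕ} {z : Word S T → ℤ} (hz : IsMove z)
    (h : SameCounts p u)
    (hs : (∀ w, (p' w : ℤ) = p w + z w) ∨ (∀ w, (p' w : ℤ) = p w - z w)) : SameCounts p' u := by
  intro e he
  have h2 := hz e he
  have h3 : ((∑ w, p' w * transCount w e : ℕ) : ℤ) = ((∑ w, p w * transCount w e : ℕ) : ℤ) := by
    push_cast
    rcases hs with h4 | h4
    · calc ∑ w, (p' w : ℤ) * (transCount w e : ℤ)
          = ∑ w, ((p w : ℤ) * (transCount w e : ℤ) + z w * (transCount w e : ℤ)) := by
            refine Finset.sum_congr rfl (fun w _ => ?_)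
            rw [h4 w]; ring
        _ = ∑ w, (p w : ℤ) * (transCount w e : ℤ) := by
            rw [Finset.sum_add_distrib, h2, add_zero]
    · calc ∑ w, (p' w : ℤ) * (transCount w e : ℤ)
          = ∑ w, ((p w : ℤ) * (transCount w e : ℤ) - z w * (transCount w e : ℤ)) := by
            refine Finset.sum_congr rfl (fun w _ => ?_)
            rw [h4 w]; ring
        _ = ∑ w, (p w : ℤ) * (transCount w e : ℤ) := by
            rw [Finset.sum_sub_distrib, h2, sub_zero]
  have h5 : ∑ w, p' w * transCount w e = ∑ w, p w * transCount w e := by exact_mod_cast h3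
  rw [h5]
  exact h e he

/-- Markov bases. -/
theorem markov_of_classes {S T D : ℕ} (A B : (Word S T → ℕ) → Prop) (u v : Word S T → ℕ)
    (hA : A u) (hB : B v) (hvu : SameCounts v u)
    (hcl : ∀ w, SameCounts w u → A w ∨ B w)
    (sA : ∀ w, SameCounts w u → A w → ∑ ω, w ω = D)
    (sB : ∀ w, SameCounts w u → B w → ∑ ω, w ω = D)
    (hd : ∀ w w', SameCounts w u → SameCounts w' u → A w → B w' → ∀ ω, w ω = 0 ∨ w' ω = 0)
    (hD : 0 < D) (M : Set (Word S T → ℤ)) (hM : IsMarkovBasis S T M) :
    ∃ z ∈ M, D ≤ moveDegree z := by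
  by_contra hcon
  push Not at hcon
  obtain ⟨n, p, hp0, hpn, hstep⟩ := hM.2 u v (fun e he => (hvu e he).symm)
  have hall : ∀ l ≤ n, SameCounts (p l) u ∧ A (p l) := by
    intro l
    induction l with
    | zero =>
      intro _
      rw [hp0]
      exact ⟨fun _ _ => rfl, hA⟩
    | succ l ih =>
      intro hl
      obtain ⟨h1, h2⟩ := ih (by omega)
      obtain ⟨z, hz, hs⟩ := hstep l (by omega)
      have hs1 : SameCounts (p (l + 1)) u := step_same (hM.1 z hz) h1 hs
      refine ⟨hs1, ?_⟩
      rcases hcl _ hs1 with h3 | h3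
      · exact h3
      · exfalso
        have hdeg := hcon z hz
        have hdis := hd _ _ h1 hs1 h2 h3
        have hle : D ≤ moveDegree z := by
          unfold moveDegree
          rcases hs with h4 | h4
          · rw [← sB _ hs1 h3]
            apply Finset.sum_le_sum
            intro w _
            have h5 := h4 w
            rcases hdis w with h6 | h6
            · rw [h6] at h5; omega
            · rw [h6]; exact Nat.zero_le _
          · rw [← sA _ h1 h2]
            apply Finset.sum_le_sum
            intro w _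
            have h5 := h4 w
            rcases hdis w with h6 | h6
            · rw [h6]; exact Nat.zero_le _
            · rw [h6] at h5; omega
        omega
  obtain ⟨_, hAv⟩ := hall n le_rfl
  rw [hpn] at hAv
  have hz : ∀ ω, v ω = 0 := by
    intro ω
    rcases hd v v hvu hvu hAv hB ω with h | h <;> exact h
  have h1 := sB v hvu hB
  rw [Finset.sum_eq_zero (fun ω _ => hz ω)] at h1
  omega

/-- In a kernel element, every monomial of the support has a partner in the support. -/
lemma partner' {k : Type*} [Field k] {S T : ℕ} {h : MvPolynomial (Word S T) k}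
    (hh : h ∈ toricIdeal k S T) {a : Word S T →₀ ℕ} (ha : coeff a h ≠ 0) :
    ∃ a', a' ≠ a ∧ coeff a' h ≠ 0 ∧ exv a' = exv a := by
  classical
  by_contra hcon
  push Not at hcon
  have h0 : toricMap k S T h = 0 := hh
  rw [h.as_sum, map_sum] at h0
  simp only [toricMap_monomial] at h0
  have h1 := congrArg (coeff (exv a)) h0
  rw [coeff_sum, coeff_zero] at h1
  rw [Finset.sum_eq_single a] at h1
  · rw [coeff_monomial, if_pos rfl] at h1
    exact ha h1
  · intro b hb hba
    rw [coeff_monomial, if_neg]
    exact hcon b hba (mem_support_iff.1 hb)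
  · intro hb
    rw [coeff_monomial, if_pos rfl]
    exact notMem_support_iff.1 hb

/-- Gröbner bases. -/
theorem groebner_of_classes {S T D : ℕ} (A B : (Word S T → ℕ) → Prop) (u v : Word S T → ℕ)
    (hA : A u) (hB : B v) (hvu : SameCounts v u)
    (hcl : ∀ w, SameCounts w u → A w ∨ B w)
    (sA : ∀ w, SameCounts w u → A w → ∑ ω, w ω = D)
    (sB : ∀ w, SameCounts w u → B w → ∑ ω, w ω = D)
    (hd : ∀ w w', SameCounts w u → SameCounts w' u → A w → B w' → ∀ ω, w ω = 0 ∨ w' ω = 0)
    (hD : 0 < D) (k : Type*) [Field k]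
    (m : MonomialOrder (Word S T)) (G : Set (MvPolynomial (Word S T) k))
    (hG : IsGroebnerBasis m (toricIdeal k S T) G) :
    ∃ g ∈ G, D ≤ g.totalDegree := by
  classical
  have hwf : WellFounded (fun a b : Word S T →₀ ℕ => m.toSyn a < m.toSyn b) :=
    InvImage.wf m.toSyn wellFounded_lt
  set u0 : Word S T →₀ ℕ := Finsupp.equivFunOnFinite.symm u with hu0
  set v0 : Word S T →₀ ℕ := Finsupp.equivFunOnFinite.symm v with hv0
  have cu0 : (⇑u0 : Word S T → ℕ) = u := rfl
  have cv0 : (⇑v0 : Word S T → ℕ) = v := rfl
  obtain ⟨a, ⟨haS, haA⟩, hamin⟩ := hwf.has_min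
    {a : Word S T →₀ ℕ | SameCounts (⇑a) u ∧ A (⇑a)} ⟨u0, fun _ _ => rfl, hA⟩
  obtain ⟨b, ⟨hbS, hbB⟩, hbmin⟩ := hwf.has_min
    {a : Word S T →₀ ℕ | SameCounts (⇑a) u ∧ B (⇑a)} ⟨v0, hvu, hB⟩
  have hdisj := hd _ _ haS hbS haA hbB
  have hsa := sA _ haS haA
  have hsb := sB _ hbS hbB
  have hab : a ≠ b := by
    intro h
    have hz : ∀ w, a w = 0 := by
      intro w
      rcases hdisj w with h' | h'
      · exact h'
      · rw [h]; exact h'
    rw [Finset.sum_eq_zero (fun ω _ => hz ω)] at hsa
    omega
  have hexv : exv a = exv b :=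
    exv_of_sameCounts (fun e he => (haS e he).trans (hbS e he).symm)
  -- the binomial
  set F : MvPolynomial (Word S T) k := monomial a 1 - monomial b 1 with hF
  have hFI : F ∈ toricIdeal k S T := by
    change toricMap k S T F = 0
    rw [hF, map_sub, toricMap_monomial, toricMap_monomial, hexv, sub_self]
  have hFa : coeff a F = 1 := by
    rw [hF, coeff_sub, coeff_monomial, coeff_monomial, if_pos rfl, if_neg hab.symm, sub_zero]
  have hF0 : F ≠ 0 := by
    intro h
    rw [h, coeff_zero] at hFa
    exact zero_ne_one hFa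
  obtain ⟨g, hgG, hg0, hgle⟩ := hG.2 F hFI hF0
  refine ⟨g, hgG, ?_⟩
  have hdF : m.degree F = a ∨ m.degree F = b := by
    have h1 : coeff (m.degree F) F ≠ 0 := by
      rw [m.coeff_degree_ne_zero_iff]; exact hF0
    by_contra hcon
    push Not at hcon
    apply h1
    rw [hF, coeff_sub, coeff_monomial, coeff_monomial, if_neg (Ne.symm hcon.1),
      if_neg (Ne.symm hcon.2), sub_zero]
  have hgc : coeff (m.degree g) g ≠ 0 := by
    rw [m.coeff_degree_ne_zero_iff]; exact hg0
  obtain ⟨a', ha', hca', hea'⟩ := partner' (hG.1 g hgG) hgc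
  have hlt : m.toSyn a' < m.toSyn (m.degree g) := by
    refine lt_of_le_of_ne (m.le_degree (mem_support_iff.2 hca')) ?_
    intro h
    exact ha' (m.toSyn.injective h)
  set r : Word S T →₀ ℕ := m.degree F - m.degree g with hr
  have hsum : m.degree g + r = m.degree F := add_tsub_cancel_of_le hgle
  have hlt2 : m.toSyn (a' + r) < m.toSyn (m.degree F) := by
    rw [← hsum, map_add, map_add]
    exact add_lt_add_left hlt _
  have hdS : SameCounts (⇑(m.degree F)) u := by
    rcases hdF with h | h
    · rw [h]; exact haS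
    · rw [h]; exact hbS
  have hfib : SameCounts (⇑(a' + r)) u := by
    have h2 : exv (a' + r) = exv (m.degree F) := by
      rw [exv_add, hea', ← exv_add, hsum]
    intro e he
    exact (sameCounts_of_exv h2 e he).trans (hdS e he)
  have hr0 : r = 0 := by
    ext w
    have h7 : r w ≤ (a' + r) w := by rw [Finsupp.add_apply]; omega
    have h8 : r w ≤ (m.degree F) w := by rw [← hsum, Finsupp.add_apply]; omega
    rw [Finsupp.coe_zero, Pi.zero_apply]
    rcases hdF with h | h
    · rw [h] at h8 hlt2
      rcases hcl _ hfib with h3 | h3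
      · exact absurd hlt2 (hamin _ ⟨hfib, h3⟩)
      · rcases hd _ _ haS hfib haA h3 w with h9 | h9
        · omega
        · rw [h9] at h7; omega
    · rw [h] at h8 hlt2
      rcases hcl _ hfib with h3 | h3
      · rcases hd _ _ hfib hbS h3 hbB w with h9 | h9
        · rw [h9] at h7; omega
        · omega
      · exact absurd hlt2 (hbmin _ ⟨hfib, h3⟩)
  have key : m.degree g = m.degree F := by rw [← hsum, hr0, add_zero]
  have hdeg : (m.degree F).sum (fun _ n => n) = D := by
    rw [Finsupp.sum_fintype _ _ (by simp)]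
    rcases hdF with h | h
    · rw [h]; exact hsa
    · rw [h]; exact hsb
  have h10 := le_totalDegree (mem_support_iff.2 hgc)
  rw [key, hdeg] at h10
  exact h10

end Pool.Agent.Y359.TM
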