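import Pool.Agent.Y359.TM.Words

set_option autoImplicit false

/-! # The fibre for words of odd length: two classes with disjoint supports -/

namespace Pool.Agent.Y359.TM

open Finset Pool.Agent.H609R3

/-- multiplicities of the first element -/
def U (K : ℕ) : Fin 12 → ℕ := ![0, 0, 1, 0, K + 2, K + 2, 0, 0, 0, 0, K + 2, K + 2]

/-- multiplicities of the second element -/
def V (K : ℕ) : Fin 12 → ℕ := ![1, 0, 0, 0, 0, 0, K + 2, K + 2, K + 2, K + 2, 0, 0]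

lemma N_table :
    (∀ i : Fin 12, N i 4 0 4 = ![0, 0, 0, 0, 0, 0, 0, 0, 1, 1, 1, 1] i) ∧
    (∀ i : Fin 12, N i 4 4 2 = ![0, 0, 0, 0, 1, 0, 0, 0, 1, 0, 0, 0] i) ∧
    (∀ i : Fin 12, N i 4 4 3 = ![0, 0, 0, 0, 0, 1, 0, 0, 0, 1, 0, 0] i) ∧
    (∀ i : Fin 12, N i 4 4 5 = ![0, 0, 0, 0, 0, 0, 1, 0, 0, 0, 1, 0] i) ∧
    (∀ i : Fin 12, N i 4 4 1 = ![0, 0, 0, 0, 0, 0, 0, 1, 0, 0, 0, 1] i) ∧
    (∀ i : Fin 12, N i 4 2 3 = ![2, 2, 0, 0, 2, 1, 0, 0, 1, 1, 0, 0] i) ∧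
    (∀ i : Fin 12, N i 4 3 2 = ![2, 2, 0, 0, 1, 2, 0, 0, 1, 1, 0, 0] i) ∧
    (∀ i : Fin 12, N i 4 5 1 = ![0, 0, 2, 2, 0, 0, 2, 1, 0, 0, 1, 1] i) ∧
    (∀ i : Fin 12, N i 4 1 5 = ![0, 0, 2, 2, 0, 0, 1, 2, 0, 0, 1, 1] i) := by
  decide

lemma dl_table :
    (∀ i : Fin 12, dl i 0 4 = 0) ∧
    (∀ i : Fin 12, dl i 4 2 = 0) ∧
    (∀ i : Fin 12, dl i 4 3 = 0) ∧
    (∀ i : Fin 12, dl i 4 5 = 0) ∧
    (∀ i : Fin 12, dl i 4 1 = 0) ∧
    (∀ i : Fin 12, dl i 2 3 = ![1, 1, 0, 0, 1, 1, 0, 0, 1, 1, 0, 0] i) ∧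
    (∀ i : Fin 12, dl i 3 2 = ![1, 1, 0, 0, 1, 1, 0, 0, 1, 1, 0, 0] i) ∧
    (∀ i : Fin 12, dl i 5 1 = ![0, 0, 1, 1, 0, 0, 1, 1, 0, 0, 1, 1] i) ∧
    (∀ i : Fin 12, dl i 1 5 = ![0, 0, 1, 1, 0, 0, 1, 1, 0, 0, 1, 1] i) := by
  decide

/-- sums over twelve indices -/
lemma sum12 (F : Fin 12 → ℕ) : ∑ i, F i = F 0 + F 1 + F 2 + F 3 + F 4 + F 5 + F 6 + F 7 + F 8 +
    F 9 + F 10 + F 11 := by
  simp only [Fin.sum_univ_succ, Fin.sum_univ_zero]
  simp only [Fin.succ_zero_eq_one, Fin.succ_one_eq_two]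
  simp only [add_assoc, add_zero]
  rfl

/-- the first class of solutions -/
def CA (K : ℕ) (x : Fin 12 → ℕ) : Prop :=
  x 0 = 0 ∧ x 1 = 0 ∧ x 2 + x 3 = 1 ∧ x 4 = K + 2 ∧ x 5 = K + 2 ∧ x 6 = 0 ∧ x 7 = 0 ∧ x 8 = 0 ∧
    x 9 = 0 ∧ x 10 = K + 2 ∧ x 11 = K + 2

/-- the second class of solutions -/
def CB (K : ℕ) (x : Fin 12 → ℕ) : Prop :=
  x 0 + x 1 = 1 ∧ x 2 = 0 ∧ x 3 = 0 ∧ x 4 = 0 ∧ x 5 = 0 ∧ x 6 = K + 2 ∧ x 7 = K + 2 ∧
    x 8 = K + 2 ∧ x 9 = K + 2 ∧ x 10 = 0 ∧ x 11 = 0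

lemma dicho (K s y : ℕ) (h : (K + 2) * s + y = K + 2) :
    (s = 0 ∧ y = K + 2) ∨ (s = 1 ∧ y = 0) := by
  rcases Nat.eq_zero_or_pos s with h0 | h0
  · left; subst h0; simp at h; exact ⟨rfl, h⟩
  · right
    have h1 : s < 2 := by
      by_contra h2
      push Not at h2
      nlinarith
    have h3 : s = 1 := by omega
    subst h3
    refine ⟨rfl, ?_⟩
    omega

/-- The linear system behind the fibre. -/
lemma system (K : ℕ) (x : Fin 12 → ℕ)
    (h : ∀ p q : Fin 6, hE p q = true →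
      ∑ i, x i * (N i 4 p q + K * dl i p q) = ∑ i, U K i * (N i 4 p q + K * dl i p q)) :
    CA K x ∨ CB K x := by
  obtain ⟨n1, n2, n3, n4, n5, n6, n7, n8, n9⟩ := N_table
  obtain ⟨d1, d2, d3, d4, d5, d6, d7, d8, d9⟩ := dl_table
  have e1 := h 0 4 (by decide)
  have e2 := h 4 2 (by decide)
  have e3 := h 4 3 (by decide)
  have e4 := h 4 5 (by decide)
  have e5 := h 4 1 (by decide)
  have e6 := h 2 3 (by decide)
  have e7 := h 3 2 (by decide)
  have e8 := h 5 1 (by decide)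
  have e9 := h 1 5 (by decide)
  simp only [n1, d1, sum12, U] at e1
  simp only [n2, d2, sum12, U] at e2
  simp only [n3, d3, sum12, U] at e3
  simp only [n4, d4, sum12, U] at e4
  simp only [n5, d5, sum12, U] at e5
  simp only [n6, d6, sum12, U] at e6
  simp only [n7, d7, sum12, U] at e7
  simp only [n8, d8, sum12, U] at e8
  simp only [n9, d9, sum12, U] at e9
  simp at e1 e2 e3 e4 e5 e6 e7 e8 e9
  have h45 : x 4 = x 5 := by nlinarith
  have h67 : x 6 = x 7 := by nlinarith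
  have m8 : (x 4 + x 8) * K = (K + 2) * K := by rw [e2]
  have m9 : (x 5 + x 9) * K = (K + 2) * K := by rw [e3]
  have m10 : (x 6 + x 10) * K = (K + 2) * K := by rw [e4]
  have m11 : (x 7 + x 11) * K = (K + 2) * K := by rw [e5]
  have m45 : x 4 * K = x 5 * K := by rw [h45]
  have m67 : x 6 * K = x 7 * K := by rw [h67]
  have g6 : (K + 2) * (x 0 + x 1) + x 4 = K + 2 := by nlinarith
  have g8 : (K + 2) * (x 2 + x 3) + x 6 = K + 2 := by nlinarith
  rcases dicho K _ _ g6 with ⟨a1, a2⟩ | ⟨a1, a2⟩ <;>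
    rcases dicho K _ _ g8 with ⟨b1, b2⟩ | ⟨b1, b2⟩
  · omega
  · left
    refine ⟨?_, ?_, ?_, ?_, ?_, ?_, ?_, ?_, ?_, ?_, ?_⟩ <;> omega
  · right
    refine ⟨?_, ?_, ?_, ?_, ?_, ?_, ?_, ?_, ?_, ?_, ?_⟩ <;> omega
  · omega

/-- The two vectors have the same counts. -/
lemma UV_counts (K : ℕ) (p q : Fin 6) :
    ∑ i, U K i * (N i 4 p q + K * dl i p q) = ∑ i, V K i * (N i 4 p q + K * dl i p q) := by
  have hdec : ∀ p q : Fin 6,
      (∑ i, U 0 i * N i 4 p q = ∑ i, V 0 i * N i 4 p q) ∧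
      (∑ i, (U 0 i * dl i p q + ![0, 0, 0, 0, 1, 1, 0, 0, 0, 0, 1, 1] i * N i 4 p q) =
        ∑ i, (V 0 i * dl i p q + ![0, 0, 0, 0, 0, 0, 1, 1, 1, 1, 0, 0] i * N i 4 p q)) ∧
      (∑ i : Fin 12, ![0, 0, 0, 0, 1, 1, 0, 0, 0, 0, 1, 1] i * dl i p q =
        ∑ i : Fin 12, ![0, 0, 0, 0, 0, 0, 1, 1, 1, 1, 0, 0] i * dl i p q) := by
    decide
  have hU : ∀ i, U K i = U 0 i + K * ![0, 0, 0, 0, 1, 1, 0, 0, 0, 0, 1, 1] i := by
    intro i; fin_cases i <;> simp [U] <;> ring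
  have hV : ∀ i, V K i = V 0 i + K * ![0, 0, 0, 0, 0, 0, 1, 1, 1, 1, 0, 0] i := by
    intro i; fin_cases i <;> simp [V] <;> ring
  obtain ⟨h1, h2, h3⟩ := hdec p q
  have eU : ∑ i, U K i * (N i 4 p q + K * dl i p q) =
      ∑ i, U 0 i * N i 4 p q +
      K * ∑ i, (U 0 i * dl i p q + ![0, 0, 0, 0, 1, 1, 0, 0, 0, 0, 1, 1] i * N i 4 p q) +
      K * K * ∑ i : Fin 12, ![0, 0, 0, 0, 1, 1, 0, 0, 0, 0, 1, 1] i * dl i p q := by
    rw [Finset.mul_sum, Finset.mul_sum, ← Finset.sum_add_distrib, ← Finset.sum_add_distrib]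
    refine Finset.sum_congr rfl (fun i _ => ?_)
    rw [hU]; ring
  have eV : ∑ i, V K i * (N i 4 p q + K * dl i p q) =
      ∑ i, V 0 i * N i 4 p q +
      K * ∑ i, (V 0 i * dl i p q + ![0, 0, 0, 0, 0, 0, 1, 1, 1, 1, 0, 0] i * N i 4 p q) +
      K * K * ∑ i : Fin 12, ![0, 0, 0, 0, 0, 0, 1, 1, 1, 1, 0, 0] i * dl i p q := by
    rw [Finset.mul_sum, Finset.mul_sum, ← Finset.sum_add_distrib, ← Finset.sum_add_distrib]
    refine Finset.sum_congr rfl (fun i _ => ?_)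
    rw [hV]; ring
  rw [eU, eV, h1, h2, h3]

section fibre

variable {S : ℕ} (hS : 6 ≤ S)

/-- The vector supported on the twelve words with given multiplicities. -/
noncomputable def lift (T : ℕ) (x : Fin 12 → ℕ) : Word S T → ℕ :=
  fun ω => ∑ i, if ew hS T i = ω then x i else 0

lemma lift_ew {T : ℕ} (hT : 4 ≤ T) (x : Fin 12 → ℕ) (i : Fin 12) :
    lift hS T x (ew hS T i) = x i := by
  unfold lift
  rw [Finset.sum_eq_single i]
  · simp
  · intro j _ hj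
    rw [if_neg]
    intro h
    exact hj (ew_inj hS hT h)
  · simp

lemma lift_other {T : ℕ} (x : Fin 12 → ℕ) (ω : Word S T) (h : ∀ i, ω ≠ ew hS T i) :
    lift hS T x ω = 0 := by
  unfold lift
  apply Finset.sum_eq_zero
  intro i _
  rw [if_neg (fun h' => h i h'.symm)]

lemma sum_lift {T : ℕ} (hT : 4 ≤ T) (x : Fin 12 → ℕ) (F : Word S T → ℕ) :
    ∑ ω, lift hS T x ω * F ω = ∑ i, x i * F (ew hS T i) := by
  symm
  apply Fintype.sum_of_injective (ew hS T) (ew_inj hS hT)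
  · intro ω hω
    rw [lift_other, zero_mul]
    intro i h
    exact hω ⟨i, h.symm⟩
  · intro i
    rw [lift_ew hS hT]

lemma sum_lift' {T : ℕ} (hT : 4 ≤ T) (x : Fin 12 → ℕ) :
    ∑ ω, lift hS T x ω = ∑ i, x i := by
  have := sum_lift hS hT x (fun _ => 1)
  simpa using this

/-- The two vectors have the same transition counts, at all pairs. -/
lemma counts_eq (K : ℕ) (e : Fin S × Fin S) :
    ∑ ω, lift hS (2 * K + 5) (U K) ω * transCount ω e =
      ∑ ω, lift hS (2 * K + 5) (V K) ω * transCount ω e := by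
  have hT : 4 ≤ 2 * K + 5 := by omega
  rw [sum_lift hS hT _ (fun ω => transCount ω e), sum_lift hS hT _ (fun ω => transCount ω e)]
  by_cases he : ∃ p q : Fin 6, hE p q = true ∧ e = (c hS p, c hS q)
  · obtain ⟨p, q, _, rfl⟩ := he
    have h1 : ∀ i, transCount (ew hS (2 * K + 5) i) (c hS p, c hS q) =
        N i 4 p q + K * dl i p q := by
      intro i
      rw [transCount_ew]
      exact N_eq i K p q
    simp only [h1]
    exact UV_counts K p q
  · push Not at he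
    have h1 : ∀ i, transCount (ew hS (2 * K + 5) i) e = 0 := fun i =>
      transCount_ew_zero hS i e he
    simp [h1]

/-- **The fibre has two classes.** -/
theorem fibre (K : ℕ) (w : Word S (2 * K + 5) → ℕ)
    (hw : SameCounts w (lift hS (2 * K + 5) (U K))) :
    w = lift hS (2 * K + 5) (fun i => w (ew hS (2 * K + 5) i)) ∧
      (CA K (fun i => w (ew hS (2 * K + 5) i)) ∨ CB K (fun i => w (ew hS (2 * K + 5) i))) := by
  have hT : 4 ≤ 2 * K + 5 := by omega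
  -- words outside the twelve have multiplicity zero
  have hzero : ∀ ω, (∀ i, ω ≠ ew hS (2 * K + 5) i) → w ω = 0 := by
    intro ω hω
    by_contra hne
    have : ¬ (∀ (t : ℕ) (h : t + 1 < 2 * K + 5), ∃ p q : Fin 6, hE p q = true ∧
      ω.1 ⟨t, Nat.lt_of_succ_lt h⟩ = c hS p ∧ ω.1 ⟨t + 1, h⟩ = c hS q) := by
      intro h
      obtain ⟨i, hi⟩ := word_classify hS hT ω h
      exact hω i hi
    push Not at this
    obtain ⟨t, ht, hbad⟩ := this
    set e : Fin S × Fin S := (ω.1 ⟨t, Nat.lt_of_succ_lt ht⟩, ω.1 ⟨t + 1, ht⟩) with he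
    have hne' : e.1 ≠ e.2 := ω.2 t ht
    have h1 := hw e hne'
    rw [sum_lift hS hT _ (fun ω => transCount ω e)] at h1
    have h2 : ∀ i, transCount (ew hS (2 * K + 5) i) e = 0 := by
      intro i
      apply transCount_ew_zero hS i e
      intro p q hpq heq
      have := hbad p q hpq (congrArg Prod.fst heq)
      exact this (congrArg Prod.snd heq)
    simp only [h2, mul_zero, Finset.sum_const_zero] at h1
    rw [Finset.sum_eq_zero_iff] at h1
    have h3 := h1 ω (Finset.mem_univ _)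
    have h4 := transCount_pos ω t ht
    rcases Nat.mul_eq_zero.1 h3 with h5 | h5
    · exact hne h5
    · rw [h5] at h4; exact absurd h4 (lt_irrefl _)
  -- so `w` is the lift of its values at the twelve words
  have hlift : w = lift hS (2 * K + 5) (fun i => w (ew hS (2 * K + 5) i)) := by
    funext ω
    by_cases h : ∃ i, ω = ew hS (2 * K + 5) i
    · obtain ⟨i, rfl⟩ := h
      rw [lift_ew hS hT]
    · push Not at h
      rw [hzero ω h, lift_other hS _ ω h]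
  have hsys : ∀ p q : Fin 6, hE p q = true →
      ∑ i, w (ew hS (2 * K + 5) i) * (N i 4 p q + K * dl i p q) =
        ∑ i, U K i * (N i 4 p q + K * dl i p q) := by
    intro p q hpq
    have hne : (c hS p : Fin S) ≠ c hS q := fun h => hE_ne hpq (c_inj hS h)
    have h1 := hw (c hS p, c hS q) hne
    have h2 : ∀ i, transCount (ew hS (2 * K + 5) i) (c hS p, c hS q) =
        N i 4 p q + K * dl i p q := by
      intro i
      rw [transCount_ew]
      exact N_eq i K p q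
    rw [hlift] at h1
    rw [sum_lift hS hT _ (fun ω => transCount ω (c hS p, c hS q)),
      sum_lift hS hT _ (fun ω => transCount ω (c hS p, c hS q))] at h1
    simpa only [h2] using h1
  exact ⟨hlift, system K _ hsys⟩

lemma CA_U (K : ℕ) : CA K (U K) := by
  refine ⟨rfl, rfl, rfl, rfl, rfl, rfl, rfl, rfl, rfl, rfl, rfl⟩

lemma CB_V (K : ℕ) : CB K (V K) := by
  refine ⟨rfl, rfl, rfl, rfl, rfl, rfl, rfl, rfl, rfl, rfl, rfl⟩

lemma sum_CA (K : ℕ) (x : Fin 12 → ℕ) (h : CA K x) : ∑ i, x i = 4 * K + 9 := by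
  obtain ⟨h0, h1, h2, h4, h5, h6, h7, h8, h9, h10, h11⟩ := h
  rw [sum12]
  omega

lemma sum_CB (K : ℕ) (x : Fin 12 → ℕ) (h : CB K x) : ∑ i, x i = 4 * K + 9 := by
  obtain ⟨h0, h1, h2, h4, h5, h6, h7, h8, h9, h10, h11⟩ := h
  rw [sum12]
  omega

lemma disj (K : ℕ) (x y : Fin 12 → ℕ) (hx : CA K x) (hy : CB K y) (i : Fin 12) :
    x i = 0 ∨ y i = 0 := by
  obtain ⟨h0, h1, h2, h4, h5, h6, h7, h8, h9, h10, h11⟩ := hx
  obtain ⟨g0, g1, g2, g4, g5, g6, g7, g8, g9, g10, g11⟩ := hy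
  fin_cases i
  · exact Or.inl h0
  · exact Or.inl h1
  · exact Or.inr g1
  · exact Or.inr g2
  · exact Or.inr g4
  · exact Or.inr g5
  · exact Or.inl h6
  · exact Or.inl h7
  · exact Or.inl h8
  · exact Or.inl h9
  · exact Or.inr g10
  · exact Or.inr g11

include hS in
/-- **Summary.**  The fibre of `lift U` splits in two classes. -/
theorem summary (K : ℕ) : ∃ (A B : (Word S (2 * K + 5) → ℕ) → Prop)
    (u v : Word S (2 * K + 5) → ℕ), A u ∧ B v ∧ SameCounts v u ∧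
      (∀ w, SameCounts w u → A w ∨ B w) ∧
      (∀ w, SameCounts w u → A w → ∑ ω, w ω = 4 * K + 9) ∧
      (∀ w, SameCounts w u → B w → ∑ ω, w ω = 4 * K + 9) ∧
      (∀ w w', SameCounts w u → SameCounts w' u → A w → B w' → ∀ ω, w ω = 0 ∨ w' ω = 0) := by
  have hT : 4 ≤ 2 * K + 5 := by omega
  refine ⟨fun w => CA K (fun i => w (ew hS (2 * K + 5) i)),
    fun w => CB K (fun i => w (ew hS (2 * K + 5) i)), lift hS (2 * K + 5) (U K),
    lift hS (2 * K + 5) (V K), ?_, ?_, ?_, ?_, ?_, ?_, ?_⟩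
  · simp only [lift_ew hS hT]
    exact CA_U K
  · simp only [lift_ew hS hT]
    exact CB_V K
  · intro e _
    exact (counts_eq hS K e).symm
  · intro w hw
    exact (fibre hS K w hw).2
  · intro w hw hA
    rw [(fibre hS K w hw).1, sum_lift' hS hT]
    exact sum_CA K _ hA
  · intro w hw hA
    rw [(fibre hS K w hw).1, sum_lift' hS hT]
    exact sum_CB K _ hA
  · intro w w' hw hw' hA hB ω
    by_cases h : ∃ i, ω = ew hS (2 * K + 5) i
    · obtain ⟨i, rfl⟩ := h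
      exact disj K _ _ hA hB i
    · push Not at h
      left
      rw [(fibre hS K w hw).1]
      exact lift_other hS _ ω h

end fibre

end Pool.Agent.Y359.TM
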