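import Pool.Agent.Y359.TM.EvSol

set_option autoImplicit false

/-!
# The fibre for words of even length
-/

namespace Pool.Agent.Y359.TM.Ev

open Finset Pool.Agent.H609R3

section fibre

variable {m K S : ℕ} (hS : 3 * m + 7 + (2 * K) * (m + 2) ≤ S)

/-- the words over `Fin S` -/
def ew (k : Ix m) : Word S (2 * K + 4) :=
  ⟨fun t => cd hS (wf m K k t.1), fun t h e => E_ne (wf_step k t h) (cd_inj hS e)⟩

lemma wf_inj (k k' : Ix m) (h : ∀ r, r < 2 * K + 4 → wf m K k r = wf m K k' r) : k = k' := by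
  have h0 := h 0 (by omega)
  have h1 := h 1 (by omega)
  have h2 := h 2 (by omega)
  have hl := last_ne (m := m)
  have p0 := pos_zero (K := K) (0 : Fin (m + 2))
  have p1 := pos_one (K := K) (0 : Fin (m + 2))
  have pl0 := pos_zero (K := K) (Fin.last (m + 1))
  have pl1 := pos_one (K := K) (Fin.last (m + 1))
  rcases k with ⟨i, s⟩ | ⟨i, s⟩ | k <;> rcases k' with ⟨i', s'⟩ | ⟨i', s'⟩ | k'
  · have a : i = i' := L.x.inj h0
    subst a
    have h1' : (pos (nb i s) 0 : L m K) = pos (nb i s') 0 := h1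
    rw [pos_zero, pos_zero] at h1'
    have b : s = s' := nb_inj _ _ _ (L.A.inj h1')
    subst b
    rfl
  · exact absurd h0 (by simp [wf])
  · exact absurd h0 (by fin_cases k' <;> simp [wf, p0, p1, pl0, pl1])
  · exact absurd h0 (by simp [wf])
  · have a : i = i' := L.x.inj h1
    subst a
    have h2' : (pos (nb i s) 0 : L m K) = pos (nb i s') 0 := h2
    rw [pos_zero, pos_zero] at h2'
    have b : s = s' := nb_inj _ _ _ (L.A.inj h2')
    subst b
    rfl
  · exact absurd h0 (by fin_cases k' <;> simp [wf, p0, p1, pl0, pl1])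
  · exact absurd h0 (by fin_cases k <;> simp [wf, p0, p1, pl0, pl1])
  · exact absurd h0 (by fin_cases k <;> simp [wf, p0, p1, pl0, pl1])
  · fin_cases k <;> fin_cases k' <;>
      first | rfl | (exfalso; revert h0; simp [wf, p0, p1, pl0, pl1, hl, hl.symm])

lemma ew_inj : Function.Injective (ew hS : Ix m → Word S (2 * K + 4)) := by
  intro k k' h
  apply wf_inj (K := K)
  intro r hr
  exact cd_inj hS (congrFun (congrArg Subtype.val h) ⟨r, hr⟩)

lemma tc_ew (k : Ix m) (a b : L m K) : transCount (ew hS k) (cd hS a, cd hS b) = cnt k a b := by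
  rw [transCount_eq_card (ew hS k) (fun r => cd hS (wf m K k r)) (fun t h => rfl),
    Finset.card_filter]
  unfold cnt tr
  simp only [(cd_inj hS).eq_iff]
  rfl

lemma tc_zero (k : Ix m) (e : Fin S × Fin S)
    (he : ∀ a b : L m K, E a b → e ≠ (cd hS a, cd hS b)) : transCount (ew hS k) e = 0 := by
  rw [transCount_eq_card (ew hS k) (fun r => cd hS (wf m K k r)) (fun t h => rfl),
    Finset.card_eq_zero, Finset.filter_eq_empty_iff]
  intro t ht h
  rw [Finset.mem_range] at ht
  exact he _ _ (wf_step (K := K) k t (by omega)) (Prod.ext h.1.symm h.2.symm)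

lemma word_classify (w : Word S (2 * K + 4))
    (hw : ∀ (t : ℕ) (h : t + 1 < 2 * K + 4), ∃ a b : L m K, E a b ∧
      w.1 ⟨t, Nat.lt_of_succ_lt h⟩ = cd hS a ∧ w.1 ⟨t + 1, h⟩ = cd hS b) :
    ∃ k, w = ew hS k := by
  have h1 : ∀ (t : ℕ), ∃ p : L m K, ∀ h : t < 2 * K + 4, w.1 ⟨t, h⟩ = cd hS p := by
    intro t
    by_cases h : t < 2 * K + 4
    · by_cases h' : t + 1 < 2 * K + 4
      · obtain ⟨p, q, _, hp, _⟩ := hw t h'
        exact ⟨p, fun _ => hp⟩
      · have h2 : (t - 1) + 1 < 2 * K + 4 := by omega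
        obtain ⟨p, q, _, _, hq⟩ := hw (t - 1) h2
        refine ⟨q, fun _ => ?_⟩
        have : t - 1 + 1 = t := by omega
        simpa [this] using hq
    · exact ⟨L.z, fun h' => absurd h' h⟩
  choose g hg using h1
  have h2 : ∀ t, t + 1 < 2 * K + 4 → E (g t) (g (t + 1)) := by
    intro t ht
    obtain ⟨p, q, hpq, hp, hq⟩ := hw t ht
    rw [hg t (by omega)] at hp
    rw [hg (t + 1) ht] at hq
    rw [cd_inj hS hp, cd_inj hS hq]
    exact hpq
  obtain ⟨k, hk⟩ := classify g h2
  refine ⟨k, ?_⟩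
  apply Subtype.ext
  funext t
  rw [hg t.1 t.2, hk t.1 t.2]
  rfl

/-- The vector supported on the words with given multiplicities. -/
noncomputable def lift (x : Ix m → ℕ) : Word S (2 * K + 4) → ℕ :=
  fun ω => ∑ k, if ew hS k = ω then x k else 0

lemma lift_ew (x : Ix m → ℕ) (k : Ix m) : lift hS x (ew hS k) = x k := by
  unfold lift
  rw [Finset.sum_eq_single k]
  · simp
  · intro j _ hj
    rw [if_neg]
    intro h
    exact hj (ew_inj hS h)
  · simp

lemma lift_other (x : Ix m → ℕ) (ω : Word S (2 * K + 4)) (h : ∀ k, ω ≠ ew hS k) :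
    lift hS x ω = 0 := by
  unfold lift
  apply Finset.sum_eq_zero
  intro i _
  rw [if_neg (fun h' => h i h'.symm)]

lemma sum_lift (x : Ix m → ℕ) (F : Word S (2 * K + 4) → ℕ) :
    ∑ ω, lift hS x ω * F ω = ∑ k, x k * F (ew hS k) := by
  symm
  apply Fintype.sum_of_injective (ew hS) (ew_inj hS)
  · intro ω hω
    rw [lift_other, zero_mul]
    intro i h
    exact hω ⟨i, h.symm⟩
  · intro i
    rw [lift_ew hS]

lemma sum_lift' (x : Ix m → ℕ) : ∑ ω, lift hS x ω = ∑ k, x k := by
  have := sum_lift hS x (fun _ => 1)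
  simpa using this

lemma counts_eq (e : Fin S × Fin S) :
    ∑ ω, lift hS (U m K) ω * transCount ω e = ∑ ω, lift hS (V m K) ω * transCount ω e := by
  rw [sum_lift hS _ (fun ω => transCount ω e), sum_lift hS _ (fun ω => transCount ω e)]
  by_cases he : ∃ a b : L m K, E a b ∧ e = (cd hS a, cd hS b)
  · obtain ⟨a, b, _, rfl⟩ := he
    simp only [tc_ew]
    exact UV_counts a b
  · push Not at he
    simp [tc_zero hS _ e he]

/-- **The fibre has exactly two elements.** -/
theorem fibre (w : Word S (2 * K + 4) → ℕ) (hw : SameCounts w (lift hS (U m K))) :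
    w = lift hS (U m K) ∨ w = lift hS (V m K) := by
  have hzero : ∀ ω, (∀ k, ω ≠ ew hS k) → w ω = 0 := by
    intro ω hω
    by_contra hne
    have : ¬ (∀ (t : ℕ) (h : t + 1 < 2 * K + 4), ∃ a b : L m K, E a b ∧
      ω.1 ⟨t, Nat.lt_of_succ_lt h⟩ = cd hS a ∧ ω.1 ⟨t + 1, h⟩ = cd hS b) := by
      intro h
      obtain ⟨i, hi⟩ := word_classify hS ω h
      exact hω i hi
    push Not at this
    obtain ⟨t, ht, hbad⟩ := this
    set e : Fin S × Fin S := (ω.1 ⟨t, Nat.lt_of_succ_lt ht⟩, ω.1 ⟨t + 1, ht⟩) with he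
    have hne' : e.1 ≠ e.2 := ω.2 t ht
    have h1 := hw e hne'
    rw [sum_lift hS _ (fun ω => transCount ω e)] at h1
    have h2 : ∀ k, transCount (ew hS k) e = 0 := by
      intro k
      apply tc_zero hS k e
      intro a b hab heq
      exact hbad a b hab (congrArg Prod.fst heq) (congrArg Prod.snd heq)
    simp only [h2, mul_zero, Finset.sum_const_zero] at h1
    rw [Finset.sum_eq_zero_iff] at h1
    have h3 := h1 ω (Finset.mem_univ _)
    have h4 := transCount_pos ω t ht
    rcases Nat.mul_eq_zero.1 h3 with h5 | h5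
    · exact hne h5
    · rw [h5] at h4; exact absurd h4 (lt_irrefl _)
  have hlift : w = lift hS (fun k => w (ew hS k)) := by
    funext ω
    by_cases h : ∃ k, ω = ew hS k
    · obtain ⟨k, rfl⟩ := h
      rw [lift_ew hS]
    · push Not at h
      rw [hzero ω h, lift_other hS _ ω h]
  have hsys : ∀ a b : L m K, E a b →
      ∑ k, w (ew hS k) * cnt k a b = ∑ k, U m K k * cnt k a b := by
    intro a b hab
    have hne : (cd hS a : Fin S) ≠ cd hS b := fun h => E_ne hab (cd_inj hS h)
    have h1 := hw (cd hS a, cd hS b) hne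
    rw [hlift] at h1
    rw [sum_lift hS _ (fun ω => transCount ω (cd hS a, cd hS b)),
      sum_lift hS _ (fun ω => transCount ω (cd hS a, cd hS b))] at h1
    simpa only [tc_ew] using h1
  rcases system _ hsys with h | h
  · left; rw [hlift, h]
  · right; rw [hlift, h]

include hS in
/-- **Summary.** -/
theorem summary : ∃ (A B : (Word S (2 * K + 4) → ℕ) → Prop)
    (u v : Word S (2 * K + 4) → ℕ), A u ∧ B v ∧ SameCounts v u ∧
      (∀ w, SameCounts w u → A w ∨ B w) ∧
      (∀ w, SameCounts w u → A w → ∑ ω, w ω = (2 * m + 3) * (2 * K + 3)) ∧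
      (∀ w, SameCounts w u → B w → ∑ ω, w ω = (2 * m + 3) * (2 * K + 3)) ∧
      (∀ w w', SameCounts w u → SameCounts w' u → A w → B w' → ∀ ω, w ω = 0 ∨ w' ω = 0) := by
  refine ⟨fun w => w = lift hS (U m K), fun w => w = lift hS (V m K), lift hS (U m K),
    lift hS (V m K), rfl, rfl, ?_, ?_, ?_, ?_, ?_⟩
  · intro e _
    exact (counts_eq hS e).symm
  · exact fun w hw => fibre hS w hw
  · rintro w _ rfl
    rw [sum_lift' hS, sum_U]
  · rintro w _ rfl
    rw [sum_lift' hS, sum_V]
  · rintro w w' _ _ rfl rfl ω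
    by_cases h : ∃ k, ω = ew hS k
    · obtain ⟨k, rfl⟩ := h
      rw [lift_ew hS, lift_ew hS]
      exact UV_disj k
    · push Not at h
      left
      exact lift_other hS _ ω h

end fibre

end Pool.Agent.Y359.TM.Ev
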