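import Pool.Agent.Y359.TM.FourSys

set_option autoImplicit false

/-!
# Words of even length `2 K + 4` over many letters
-/

namespace Pool.Agent.Y359.TM.Ev

open Finset Pool.Agent.H609R3

/-- the letters -/
inductive L (m K : ℕ) : Type
  | z : L m K
  | c : L m K
  | x (i : Fin (m + 1)) : L m K
  | A (j : Fin (m + 2)) : L m K
  | B (j : Fin (m + 2)) : L m K
  | t (j : Fin (m + 2)) (k : Fin (2 * K)) : L m K
  deriving DecidableEq

variable {m K : ℕ}

/-- the two ends -/
def en (j : Fin (m + 2)) : Prop := j = 0 ∨ j = Fin.last (m + 1)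

instance (j : Fin (m + 2)) : Decidable (en j) := inferInstanceAs (Decidable (_ ∨ _))

/-- the path which starts at `A j` -/
def pos (j : Fin (m + 2)) (r : ℕ) : L m K :=
  if en j then (if r % 2 = 0 then L.A j else L.B j)
  else if r = 0 then L.A j else if r = 1 then L.B j
    else if h : r - 2 < 2 * K then L.t j ⟨r - 2, h⟩ else L.c

/-- numbers of the letters -/
def num : L m K → ℕ
  | L.z => 0
  | L.c => 1
  | L.x i => 2 + i
  | L.A j => m + 3 + j
  | L.B j => 2 * m + 5 + j
  | L.t j k => 3 * m + 7 + ((2 * K) * j + k)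

lemma num_lt (l : L m K) : num l < 3 * m + 7 + (2 * K) * (m + 2) := by
  cases l with
  | z => simp only [num]; omega
  | c => simp only [num]; omega
  | x i => simp only [num]; have := i.2; omega
  | A j => simp only [num]; have := j.2; omega
  | B j => simp only [num]; have := j.2; omega
  | t j k =>
    simp only [num]
    have h1 := j.2
    have h2 := k.2
    have h3 : (2 * K) * (j.1 + 1) ≤ (2 * K) * (m + 2) := Nat.mul_le_mul_left _ h1
    rw [Nat.mul_add] at h3
    omega

lemma num_inj : Function.Injective (num : L m K → ℕ) := by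
  intro a b h
  cases a <;> cases b <;> simp only [num] at h <;>
    first
    | rfl
    | omega
    | (congr 1; apply Fin.ext; omega)
    | skip
  rename_i j k j' k'
  have hk := k.2
  have hk' := k'.2
  have h0 : 0 < 2 * K := by omega
  have h1 : 2 * K * j.1 + k.1 = 2 * K * j'.1 + k'.1 := by omega
  have h2 := congrArg (· % (2 * K)) h1
  have h3 := congrArg (· / (2 * K)) h1
  simp only [Nat.mul_add_mod, Nat.mod_eq_of_lt hk, Nat.mod_eq_of_lt hk'] at h2
  simp only [Nat.mul_add_div h0, Nat.div_eq_of_lt hk, Nat.div_eq_of_lt hk', add_zero] at h3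
  have e1 : j = j' := Fin.ext h3
  have e2 : k = k' := Fin.ext h2
  rw [e1, e2]

section code

variable {S : ℕ} (hS : 3 * m + 7 + (2 * K) * (m + 2) ≤ S)

/-- the letters inside `Fin S` -/
def cd (l : L m K) : Fin S := ⟨num l, lt_of_lt_of_le (num_lt l) hS⟩

lemma cd_inj : Function.Injective (cd hS) := by
  intro a b h
  exact num_inj (congrArg Fin.val h)

end code

/-- left or right neighbour -/
def nb (i : Fin (m + 1)) : Bool → Fin (m + 2)
  | false => i.castSucc
  | true => i.succ

/-- the transitions -/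
inductive E : L m K → L m K → Prop
  | zx (i : Fin (m + 1)) : E L.z (L.x i)
  | xa (i : Fin (m + 1)) (s : Bool) : E (L.x i) (L.A (nb i s))
  | ab (j : Fin (m + 2)) : E (L.A j) (L.B j)
  | bn (j : Fin (m + 2)) : E (L.B j) (pos j 2)
  | tt (j : Fin (m + 2)) (k : Fin (2 * K)) (hj : ¬ en j) : E (L.t j k) (pos j (k + 3))

lemma E_z {w : L m K} (h : E L.z w) : ∃ i, w = L.x i := by cases h; exact ⟨_, rfl⟩
lemma E_c {w : L m K} (h : E L.c w) : False := by cases h
lemma E_x {i : Fin (m + 1)} {w : L m K} (h : E (L.x i) w) : ∃ s, w = L.A (nb i s) := by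
  cases h; exact ⟨_, rfl⟩
lemma E_A {j : Fin (m + 2)} {w : L m K} (h : E (L.A j) w) : w = L.B j := by cases h; rfl
lemma E_B {j : Fin (m + 2)} {w : L m K} (h : E (L.B j) w) : w = pos j 2 := by cases h; rfl
lemma E_t {j : Fin (m + 2)} {k : Fin (2 * K)} {w : L m K} (h : E (L.t j k) w) :
    ¬ en j ∧ w = pos j (k + 3) := by
  cases h with
  | tt _ _ hj => exact ⟨hj, rfl⟩

lemma pos_zero (j : Fin (m + 2)) : (pos j 0 : L m K) = L.A j := by
  unfold pos; split_ifs <;> simp_all

lemma pos_one (j : Fin (m + 2)) : (pos j 1 : L m K) = L.B j := by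
  unfold pos; split_ifs <;> simp_all

lemma pos_en {j : Fin (m + 2)} (hj : en j) (r : ℕ) : (pos j r : L m K) =
    if r % 2 = 0 then L.A j else L.B j := by
  unfold pos; rw [if_pos hj]

lemma pos_t {j : Fin (m + 2)} (hj : ¬ en j) (k : Fin (2 * K)) : (pos j (k + 2) : L m K) =
    L.t j k := by
  unfold pos
  have h : (k : ℕ) + 2 - 2 < 2 * K := by have := k.2; omega
  rw [if_neg hj, if_neg (by omega), if_neg (by omega), dif_pos h]
  congr 1

lemma pos_c {j : Fin (m + 2)} (hj : ¬ en j) : (pos j (2 * K + 2) : L m K) = L.c := by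
  unfold pos
  rw [if_neg hj, if_neg (by omega), if_neg (by omega), dif_neg (by omega)]

lemma E_pos {j : Fin (m + 2)} {r : ℕ} {w : L m K} (h : E (pos j r) w) : w = pos j (r + 1) := by
  by_cases hj : en j
  · rw [pos_en hj] at h
    rcases Nat.mod_two_eq_zero_or_one r with h2 | h2
    · rw [if_pos h2] at h
      rw [E_A h, pos_en hj, if_neg (by omega)]
    · rw [if_neg (by omega)] at h
      rw [E_B h, pos_en hj, pos_en hj, if_pos (by omega), if_pos (by omega)]
  · rcases Nat.lt_or_ge r 2 with h2 | h2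
    · have : r = 0 ∨ r = 1 := by omega
      rcases this with rfl | rfl
      · rw [pos_zero] at h
        rw [E_A h, pos_one]
      · rw [pos_one] at h
        exact E_B h
    · rcases Nat.lt_or_ge (r - 2) (2 * K) with h3 | h3
      · obtain ⟨k, rfl⟩ : ∃ k : Fin (2 * K), r = k + 2 := ⟨⟨r - 2, h3⟩, by simp only; omega⟩
        rw [pos_t hj] at h
        exact (E_t h).2
      · exfalso
        unfold pos at h
        rw [if_neg hj, if_neg (by omega), if_neg (by omega), dif_neg (by omega)] at h
        exact E_c h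

lemma E_step (j : Fin (m + 2)) (r : ℕ) (h : en j ∨ r < 2 * K + 2) :
    E (pos j r : L m K) (pos j (r + 1)) := by
  by_cases hj : en j
  · rw [pos_en hj, pos_en hj]
    rcases Nat.mod_two_eq_zero_or_one r with h2 | h2
    · rw [if_pos h2, if_neg (by omega)]
      exact E.ab j
    · rw [if_neg (by omega), if_pos (by omega)]
      have := E.bn (K := K) j
      rwa [pos_en hj, if_pos (by norm_num)] at this
  · have hr : r < 2 * K + 2 := by
      rcases h with h | h
      · exact absurd h hj
      · exact h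
    rcases Nat.lt_or_ge r 2 with h2 | h2
    · have : r = 0 ∨ r = 1 := by omega
      rcases this with rfl | rfl
      · rw [pos_zero, pos_one]
        exact E.ab j
      · rw [pos_one]
        exact E.bn j
    · obtain ⟨k, rfl⟩ : ∃ k : Fin (2 * K), r = k + 2 := ⟨⟨r - 2, by omega⟩, by simp only; omega⟩
      rw [pos_t hj]
      exact E.tt j k hj

lemma E_ne {a b : L m K} (h : E a b) : a ≠ b := by
  cases h with
  | zx i => simp
  | xa i s => simp
  | ab j => simp
  | bn j => unfold pos; split_ifs <;> simp_all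
  | tt j k hj =>
    unfold pos
    rw [if_neg hj, if_neg (by omega), if_neg (by omega)]
    split_ifs
    · intro h
      have := congrArg Fin.val (L.t.inj h).2
      simp at this
    · simp

/-- indices of the words -/
abbrev Ix (m : ℕ) : Type := (Fin (m + 1) × Bool) ⊕ ((Fin (m + 1) × Bool) ⊕ Fin 4)

/-- the words -/
def wf (m K : ℕ) : Ix m → ℕ → L m K
  | Sum.inl (i, s), r => if r = 0 then L.x i else pos (nb i s) (r - 1)
  | Sum.inr (Sum.inl (i, s)), r =>
    if r = 0 then L.z else if r = 1 then L.x i else pos (nb i s) (r - 2)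
  | Sum.inr (Sum.inr k), r => (![pos 0 r, pos 0 (r + 1), pos (Fin.last (m + 1)) r,
      pos (Fin.last (m + 1)) (r + 1)] : Fin 4 → L m K) k

lemma wf_step (k : Ix m) (r : ℕ) (hr : r + 1 < 2 * K + 4) :
    E (wf m K k r) (wf m K k (r + 1)) := by
  rcases k with ⟨i, s⟩ | ⟨i, s⟩ | k
  · rcases r with _ | r
    · change E (L.x i) (pos (nb i s) 0)
      rw [pos_zero]
      exact E.xa i s
    · exact E_step _ r (Or.inr (by omega))
  · rcases r with _ | _ | r
    · exact E.zx i
    · change E (L.x i) (pos (nb i s) 0)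
      rw [pos_zero]
      exact E.xa i s
    · exact E_step _ r (Or.inr (by omega))
  · fin_cases k
    · exact E_step _ r (Or.inl (Or.inl rfl))
    · exact E_step _ (r + 1) (Or.inl (Or.inl rfl))
    · exact E_step _ r (Or.inl (Or.inr rfl))
    · exact E_step _ (r + 1) (Or.inl (Or.inr rfl))

lemma follow {w : ℕ → L m K} (hw : ∀ r, r + 1 < 2 * K + 4 → E (w r) (w (r + 1)))
    (s r₀ : ℕ) (j : Fin (m + 2)) (h0 : w s = pos j r₀) (r : ℕ) (hr : s + r < 2 * K + 4) :
    w (s + r) = pos j (r₀ + r) := by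
  induction r with
  | zero => exact h0
  | succ r ih =>
    have h1 := ih (by omega)
    have h2 := hw (s + r) (by omega)
    rw [h1] at h2
    exact E_pos h2

lemma no_c {w : ℕ → L m K} (hw : ∀ r, r + 1 < 2 * K + 4 → E (w r) (w (r + 1)))
    (r₀ : ℕ) (hr₀ : r₀ ≤ 2 * K + 1) (j : Fin (m + 2)) (h0 : w 0 = pos j r₀) : en j := by
  by_contra hj
  have h1 := follow hw 0 r₀ j h0 (2 * K + 2 - r₀) (by omega)
  have e : r₀ + (2 * K + 2 - r₀) = 2 * K + 2 := by omega
  rw [e, pos_c hj] at h1
  have h2 := hw (0 + (2 * K + 2 - r₀)) (by omega)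
  rw [h1] at h2
  exact E_c h2

/-- classification -/
lemma classify (w : ℕ → L m K) (hw : ∀ r, r + 1 < 2 * K + 4 → E (w r) (w (r + 1))) :
    ∃ k : Ix m, ∀ r, r < 2 * K + 4 → w r = wf m K k r := by
  have h0 := hw 0 (by omega)
  have h1 := hw 1 (by omega)
  have fin2 : ∀ (r₀ : ℕ) (hr₀ : r₀ ≤ 1) (j : Fin (m + 2)), w 0 = pos j r₀ →
      ∃ k : Ix m, ∀ r, r < 2 * K + 4 → w r = wf m K k r := by
    intro r₀ hr₀ j hj0
    have hen := no_c hw r₀ (by omega) j hj0
    have hf := follow hw 0 r₀ j hj0
    have : r₀ = 0 ∨ r₀ = 1 := by omega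
    rcases hen with rfl | rfl <;> rcases this with rfl | rfl
    · exact ⟨Sum.inr (Sum.inr 0), fun r hr => by simpa [wf] using hf r (by omega)⟩
    · exact ⟨Sum.inr (Sum.inr 1), fun r hr => by simpa [wf, Nat.add_comm 1 r] using hf r (by omega)⟩
    · exact ⟨Sum.inr (Sum.inr 2), fun r hr => by simpa [wf] using hf r (by omega)⟩
    · exact ⟨Sum.inr (Sum.inr 3), fun r hr => by simpa [wf, Nat.add_comm 1 r] using hf r (by omega)⟩
  rcases e0 : w 0 with _ | _ | i | j | j | ⟨j, k⟩
  · rw [e0] at h0
    obtain ⟨i, hi⟩ := E_z h0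
    have hi' : w 1 = L.x i := hi
    rw [hi'] at h1
    obtain ⟨s, hs⟩ := E_x h1
    have hs' : w 2 = pos (nb i s) 0 := by rw [pos_zero]; exact hs
    refine ⟨Sum.inr (Sum.inl (i, s)), ?_⟩
    intro r hr
    rcases r with _ | _ | r
    · exact e0
    · exact hi'
    · have := follow hw 2 0 (nb i s) hs' r (by omega)
      have e : 2 + r = r + 1 + 1 := by omega
      rw [e, Nat.zero_add] at this
      exact this
  · rw [e0] at h0
    exact absurd h0 (fun h => E_c h)
  · rw [e0] at h0
    obtain ⟨s, hs⟩ := E_x h0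
    have hs' : w 1 = pos (nb i s) 0 := by rw [pos_zero]; exact hs
    refine ⟨Sum.inl (i, s), ?_⟩
    intro r hr
    rcases r with _ | r
    · exact e0
    · have := follow hw 1 0 (nb i s) hs' r (by omega)
      have e : 1 + r = r + 1 := by omega
      rw [e, Nat.zero_add] at this
      exact this
  · exact fin2 0 (by omega) j (by rw [e0, pos_zero])
  · exact fin2 1 (by omega) j (by rw [e0, pos_one])
  · exfalso
    rw [e0] at h0
    have hj := (E_t h0).1
    have hk := k.2
    exact hj (no_c hw (k + 2) (by omega) j (by rw [e0, pos_t hj]))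

end Pool.Agent.Y359.TM.Ev
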