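import Pool.Agent.Y359.TM.EvSys

set_option autoImplicit false

/-!
# The solutions of the linear system for words of even length
-/

namespace Pool.Agent.Y359.TM.Ev

open Finset Pool.Agent.H609R3

variable {m K : ℕ}

lemma nb_inj (i : Fin (m + 1)) (s s' : Bool) (h : nb i s = nb i s') : s = s' := by
  have h1 := congrArg Fin.val h
  cases s <;> cases s' <;> simp [nb] at h1 ⊢

lemma last_ne : Fin.last (m + 1) ≠ 0 := by
  intro h
  have := congrArg Fin.val h
  simp at this

lemma tr_x (i i₀ : Fin (m + 1)) (s s₀ : Bool) :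
    tr (L.x i : L m K) (L.A (nb i s)) (L.x i₀) (L.A (nb i₀ s₀)) =
      if i = i₀ then (if s = s₀ then 1 else 0) else 0 := by
  unfold tr
  by_cases h : i = i₀
  · subst h
    by_cases h' : s = s₀
    · subst h'; simp
    · have h2 : nb i s ≠ nb i s₀ := fun h'' => h' (nb_inj _ _ _ h'')
      simp [h', h2]
  · simp [h]

lemma tr_z (i i₀ : Fin (m + 1)) : tr (L.z : L m K) (L.x i) L.z (L.x i₀) =
    if i = i₀ then 1 else 0 := by
  unfold tr; simp

lemma t_zx (l : L m K) (i : Fin (m + 1)) (l' : L m K) : tr L.z l (L.x i) l' = 0 := by simp [tr]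
lemma t_zA (l : L m K) (j : Fin (m + 2)) (l' : L m K) : tr L.z l (L.A j) l' = 0 := by simp [tr]
lemma t_zB (l : L m K) (j : Fin (m + 2)) (l' : L m K) : tr L.z l (L.B j) l' = 0 := by simp [tr]
lemma t_xz (l : L m K) (i : Fin (m + 1)) (l' : L m K) : tr (L.x i) l L.z l' = 0 := by simp [tr]
lemma t_xA (l : L m K) (i : Fin (m + 1)) (j : Fin (m + 2)) (l' : L m K) :
    tr (L.x i) l (L.A j) l' = 0 := by simp [tr]
lemma t_xB (l : L m K) (i : Fin (m + 1)) (j : Fin (m + 2)) (l' : L m K) :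
    tr (L.x i) l (L.B j) l' = 0 := by simp [tr]
lemma t_Az (l : L m K) (j : Fin (m + 2)) (l' : L m K) : tr (L.A j) l L.z l' = 0 := by simp [tr]
lemma t_Ax (l : L m K) (i : Fin (m + 1)) (j : Fin (m + 2)) (l' : L m K) :
    tr (L.A j) l (L.x i) l' = 0 := by simp [tr]
lemma t_Bz (l : L m K) (j : Fin (m + 2)) (l' : L m K) : tr (L.B j) l L.z l' = 0 := by simp [tr]
lemma t_Bx (l : L m K) (i : Fin (m + 1)) (j : Fin (m + 2)) (l' : L m K) :
    tr (L.B j) l (L.x i) l' = 0 := by simp [tr]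

lemma t_ne {a' a : L m K} (b' b : L m K) (h : ix a' ≠ ix a) : tr a' b' a b = 0 := by
  unfold tr
  rw [if_neg]
  rintro ⟨h1, -⟩
  exact h (congrArg ix h1)

lemma ev_z (x : Ix m → ℕ) (i₀ : Fin (m + 1)) : ∑ k, x k * cnt k (L.z : L m K) (L.x i₀) =
    x (Sum.inr (Sum.inl (i₀, true))) + x (Sum.inr (Sum.inl (i₀, false))) := by
  rw [Pool.Agent.Y359.TM.Four.sumIx]
  simp only [cE, cG, c0, c1, c2, c3, t_xz, t_Az, t_Bz, tr_z, W_z, add_zero, mul_zero,
    Finset.sum_const_zero, zero_add]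
  simp [Finset.sum_add_distrib]

lemma ev_x (x : Ix m → ℕ) (i₀ : Fin (m + 1)) (s₀ : Bool) :
    ∑ k, x k * cnt k (L.x i₀ : L m K) (L.A (nb i₀ s₀)) =
    x (Sum.inl (i₀, s₀)) + x (Sum.inr (Sum.inl (i₀, s₀))) := by
  rw [Pool.Agent.Y359.TM.Four.sumIx]
  simp only [cE, cG, c0, c1, c2, c3, t_zx, t_Ax, t_Bx, tr_x, W_x, add_zero, mul_zero, zero_add]
  cases s₀ <;> simp

lemma pick0 (y : Fin (m + 1) → Bool → ℕ) (v : ℕ) (P : Fin (m + 2) → ℕ)
    (hP : ∀ j, P j = if j = 0 then v else 0) :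
    ∑ i : Fin (m + 1), (y i true * P i.succ + y i false * P i.castSucc) = y 0 false * v := by
  rw [Finset.sum_eq_single 0]
  · rw [hP, hP]
    simp
  · intro i _ hi
    rw [hP, hP, if_neg (Fin.succ_ne_zero i), if_neg]
    · ring
    · intro h
      apply hi
      apply Fin.ext
      have := congrArg Fin.val h
      simpa using this
  · simp

lemma pickl (y : Fin (m + 1) → Bool → ℕ) (v : ℕ) (P : Fin (m + 2) → ℕ)
    (hP : ∀ j, P j = if j = Fin.last (m + 1) then v else 0) :
    ∑ i : Fin (m + 1), (y i true * P i.succ + y i false * P i.castSucc) =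
      y (Fin.last m) true * v := by
  have hc : ∀ i : Fin (m + 1), i.castSucc ≠ Fin.last (m + 1) := fun i =>
    (Fin.castSucc_lt_last i).ne
  rw [Finset.sum_eq_single (Fin.last m)]
  · rw [hP, hP, if_neg (hc _), if_pos (Fin.succ_last m)]
    ring
  · intro i _ hi
    rw [hP, hP, if_neg (hc _), if_neg]
    · ring
    · intro h
      apply hi
      rw [← Fin.succ_last] at h
      exact Fin.succ_injective _ h
  · simp

lemma WA2 {e : Fin (m + 2)} (he : en e) (j : Fin (m + 2)) :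
    W j (2 * K + 2) (L.A e : L m K) (L.B e) = if j = e then K + 1 else 0 := by
  by_cases h : j = e
  · subst h
    have e1 : 2 * K + 2 = 2 * (K + 1) := by ring
    rw [e1, W_even he]
    simp [tr]
  · rw [if_neg h]
    exact W_ne j e h _ le_rfl _ _ rfl

lemma WA1 {e : Fin (m + 2)} (he : en e) (j : Fin (m + 2)) :
    W j (2 * K + 1) (L.A e : L m K) (L.B e) = if j = e then K + 1 else 0 := by
  by_cases h : j = e
  · subst h
    rw [W_odd he]
    simp [tr]
  · rw [if_neg h]
    exact W_ne j e h _ (by omega) _ _ rfl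

lemma WB2 {e : Fin (m + 2)} (he : en e) (j : Fin (m + 2)) :
    W j (2 * K + 2) (L.B e : L m K) (L.A e) = if j = e then K + 1 else 0 := by
  by_cases h : j = e
  · subst h
    have e1 : 2 * K + 2 = 2 * (K + 1) := by ring
    rw [e1, W_even he]
    simp [tr]
  · rw [if_neg h]
    exact W_ne j e h _ le_rfl _ _ rfl

lemma WB1 {e : Fin (m + 2)} (he : en e) (j : Fin (m + 2)) :
    W j (2 * K + 1) (L.B e : L m K) (L.A e) = if j = e then K else 0 := by
  by_cases h : j = e
  · subst h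
    rw [W_odd he]
    simp [tr]
  · rw [if_neg h]
    exact W_ne j e h _ (by omega) _ _ rfl

lemma evA0 (x : Ix m → ℕ) : ∑ k, x k * cnt k (L.A 0 : L m K) (L.B 0) =
    x (Sum.inl (0, false)) * (K + 1) + x (Sum.inr (Sum.inl (0, false))) * (K + 1) +
    (x (Sum.inr (Sum.inr 0)) * (K + 2) + x (Sum.inr (Sum.inr 1)) * (K + 1)) := by
  have hl := last_ne (m := m)
  rw [Pool.Agent.Y359.TM.Four.sumIx]
  simp only [cE, cG, c0, c1, c2, c3, nb, t_xA, t_zA, zero_add]
  rw [pick0 (fun i s => x (Sum.inl (i, s))) (K + 1)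
      (fun j => W j (2 * K + 2) (L.A 0 : L m K) (L.B 0)) (fun j => WA2 en0 j),
    pick0 (fun i s => x (Sum.inr (Sum.inl (i, s)))) (K + 1)
      (fun j => W j (2 * K + 1) (L.A 0 : L m K) (L.B 0)) (fun j => WA1 en0 j)]
  simp [tr, hl]
  ring

lemma evB0 (x : Ix m → ℕ) : ∑ k, x k * cnt k (L.B 0 : L m K) (L.A 0) =
    x (Sum.inl (0, false)) * (K + 1) + x (Sum.inr (Sum.inl (0, false))) * K +
    (x (Sum.inr (Sum.inr 0)) * (K + 1) + x (Sum.inr (Sum.inr 1)) * (K + 2)) := by
  have hl := last_ne (m := m)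
  rw [Pool.Agent.Y359.TM.Four.sumIx]
  simp only [cE, cG, c0, c1, c2, c3, nb, t_xB, t_zB, zero_add]
  rw [pick0 (fun i s => x (Sum.inl (i, s))) (K + 1)
      (fun j => W j (2 * K + 2) (L.B 0 : L m K) (L.A 0)) (fun j => WB2 en0 j),
    pick0 (fun i s => x (Sum.inr (Sum.inl (i, s)))) K
      (fun j => W j (2 * K + 1) (L.B 0 : L m K) (L.A 0)) (fun j => WB1 en0 j)]
  simp [tr, hl]
  ring

lemma evAl (x : Ix m → ℕ) :
    ∑ k, x k * cnt k (L.A (Fin.last (m + 1)) : L m K) (L.B (Fin.last (m + 1))) =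
    x (Sum.inl (Fin.last m, true)) * (K + 1) + x (Sum.inr (Sum.inl (Fin.last m, true))) * (K + 1) +
    (x (Sum.inr (Sum.inr 2)) * (K + 2) + x (Sum.inr (Sum.inr 3)) * (K + 1)) := by
  have hl := last_ne (m := m)
  rw [Pool.Agent.Y359.TM.Four.sumIx]
  simp only [cE, cG, c0, c1, c2, c3, nb, t_xA, t_zA, zero_add]
  rw [pickl (fun i s => x (Sum.inl (i, s))) (K + 1)
      (fun j => W j (2 * K + 2) (L.A (Fin.last (m + 1)) : L m K) (L.B (Fin.last (m + 1))))
      (fun j => WA2 enl j),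
    pickl (fun i s => x (Sum.inr (Sum.inl (i, s)))) (K + 1)
      (fun j => W j (2 * K + 1) (L.A (Fin.last (m + 1)) : L m K) (L.B (Fin.last (m + 1))))
      (fun j => WA1 enl j)]
  simp [tr, hl.symm]
  ring

lemma evBl (x : Ix m → ℕ) :
    ∑ k, x k * cnt k (L.B (Fin.last (m + 1)) : L m K) (L.A (Fin.last (m + 1))) =
    x (Sum.inl (Fin.last m, true)) * (K + 1) + x (Sum.inr (Sum.inl (Fin.last m, true))) * K +
    (x (Sum.inr (Sum.inr 2)) * (K + 1) + x (Sum.inr (Sum.inr 3)) * (K + 2)) := by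
  have hl := last_ne (m := m)
  rw [Pool.Agent.Y359.TM.Four.sumIx]
  simp only [cE, cG, c0, c1, c2, c3, nb, t_xB, t_zB, zero_add]
  rw [pickl (fun i s => x (Sum.inl (i, s))) (K + 1)
      (fun j => W j (2 * K + 2) (L.B (Fin.last (m + 1)) : L m K) (L.A (Fin.last (m + 1))))
      (fun j => WB2 enl j),
    pickl (fun i s => x (Sum.inr (Sum.inl (i, s)))) K
      (fun j => W j (2 * K + 1) (L.B (Fin.last (m + 1)) : L m K) (L.A (Fin.last (m + 1))))
      (fun j => WB1 enl j)]
  simp [tr, hl.symm]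
  ring

lemma inner (k : Fin m) : ¬ en (k.succ.castSucc : Fin (m + 2)) := by
  rintro (h | h)
  · have := congrArg Fin.val h
    simp at this
  · exact (Fin.castSucc_lt_last _).ne h

lemma evI (x : Ix m → ℕ) (k : Fin m) :
    ∑ k', x k' * cnt k' (pos k.succ.castSucc (2 * K + 1) : L m K)
      (pos k.succ.castSucc (2 * K + 2)) =
    x (Sum.inl (k.castSucc, true)) + x (Sum.inl (k.succ, false)) := by
  have hin := inner k
  set j₀ : Fin (m + 2) := k.succ.castSucc with hj₀
  have hix : ix (pos j₀ (2 * K + 1) : L m K) = some j₀ := ix_pos j₀ _ (by omega)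
  have hW1 : ∀ j, W j (2 * K + 1) (pos j₀ (2 * K + 1) : L m K) (pos j₀ (2 * K + 2)) = 0 := by
    intro j
    by_cases h : j = j₀
    · subst h
      unfold W
      apply Finset.sum_eq_zero
      intro r hr
      rw [Finset.mem_range] at hr
      unfold tr
      rw [if_neg]
      rintro ⟨h1, -⟩
      have h2 := congrArg rk h1
      rw [rk_pos hin _ (by omega), rk_pos hin _ (by omega)] at h2
      omega
    · exact W_ne j j₀ h _ (by omega) _ _ hix
  have hW2 : ∀ j, W j (2 * K + 2) (pos j₀ (2 * K + 1) : L m K) (pos j₀ (2 * K + 2)) =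
      if j = j₀ then 1 else 0 := by
    intro j
    by_cases h : j = j₀
    · subst h
      rw [W_succ, hW1, if_pos rfl]
      simp [ell, tr]
    · rw [if_neg h]
      exact W_ne j j₀ h _ le_rfl _ _ hix
  have n0 : (0 : Fin (m + 2)) ≠ j₀ := fun h => hin (Or.inl h.symm)
  have nl : Fin.last (m + 1) ≠ j₀ := fun h => hin (Or.inr h.symm)
  have q : ∀ (l b' b : L m K), ix l ≠ some j₀ → tr l b' (pos j₀ (2 * K + 1)) b = 0 := by
    intro l b' b h
    apply t_ne
    rw [hix]
    exact h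
  have q1 : ∀ (i : Fin (m + 1)) (b' b : L m K), tr (L.x i) b' (pos j₀ (2 * K + 1)) b = 0 :=
    fun i b' b => q _ _ _ (by simp [ix])
  have q2 : ∀ (b' b : L m K), tr L.z b' (pos j₀ (2 * K + 1)) b = 0 :=
    fun b' b => q _ _ _ (by simp [ix])
  have q3 : ∀ (b' b : L m K), tr (L.A 0) b' (pos j₀ (2 * K + 1)) b = 0 :=
    fun b' b => q _ _ _ (by simpa [ix] using n0)
  have q4 : ∀ (b' b : L m K), tr (L.B 0) b' (pos j₀ (2 * K + 1)) b = 0 :=
    fun b' b => q _ _ _ (by simpa [ix] using n0)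
  have q5 : ∀ (b' b : L m K), tr (L.A (Fin.last (m + 1))) b' (pos j₀ (2 * K + 1)) b = 0 :=
    fun b' b => q _ _ _ (by simpa [ix] using nl)
  have q6 : ∀ (b' b : L m K), tr (L.B (Fin.last (m + 1))) b' (pos j₀ (2 * K + 1)) b = 0 :=
    fun b' b => q _ _ _ (by simpa [ix] using nl)
  rw [Pool.Agent.Y359.TM.Four.sumIx]
  simp only [cE, cG, c0, c1, c2, c3, nb, q1, q2, q3, q4, q5, q6, hW1, zero_add, add_zero, mul_zero,
    Finset.sum_const_zero]
  exact Pool.Agent.Y359.TM.Four.pickm (fun i s => x (Sum.inl (i, s))) k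
    (fun j => W j (2 * K + 2) (pos j₀ (2 * K + 1) : L m K) (pos j₀ (2 * K + 2))) hW2

/-- The solutions. -/
theorem system (x : Ix m → ℕ)
    (h : ∀ a b : L m K, E a b → ∑ k, x k * cnt k a b = ∑ k, U m K k * cnt k a b) :
    x = U m K ∨ x = V m K := by
  have h1 : ∀ i, x (Sum.inr (Sum.inl (i, true))) + x (Sum.inr (Sum.inl (i, false))) =
      2 * K + 3 := by
    intro i
    have := h _ _ (E.zx i)
    rw [ev_z, ev_z] at this
    rw [this]; rfl
  have h2 : ∀ i s, x (Sum.inl (i, s)) + x (Sum.inr (Sum.inl (i, s))) = 2 * K + 3 := by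
    intro i s
    have := h _ _ (E.xa i s)
    rw [ev_x, ev_x] at this
    rw [this]
    cases s
    · rfl
    · exact Nat.zero_add _
  have h3 : ∀ k : Fin m, x (Sum.inl (k.castSucc, true)) + x (Sum.inl (k.succ, false)) =
      2 * K + 3 := by
    intro k
    have := h _ _ (E_step (K := K) k.succ.castSucc (2 * K + 1) (Or.inr (by omega)))
    rw [evI, evI] at this
    rw [this]
    exact Nat.zero_add _
  have h6 := h _ _ (E.ab 0)
  rw [evA0, evA0] at h6
  have h7 := h _ _ (E.ab (Fin.last (m + 1)))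
  rw [evAl, evAl] at h7
  have h4 := h _ _ (E_step (K := K) 0 1 (Or.inl en0))
  rw [pos_en en0, pos_en en0, if_neg (by norm_num), if_pos (by norm_num), evB0, evB0] at h4
  have h5 := h _ _ (E_step (K := K) (Fin.last (m + 1)) 1 (Or.inl enl))
  rw [pos_en enl, pos_en enl, if_neg (by norm_num), if_pos (by norm_num), evBl, evBl] at h5
  have u0 : (U m K (Sum.inr (Sum.inr 0))) = K + 1 := rfl
  have u1 : (U m K (Sum.inr (Sum.inr 1))) = 0 := rfl
  have u2 : (U m K (Sum.inr (Sum.inr 2))) = 0 := rfl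
  have u3 : (U m K (Sum.inr (Sum.inr 3))) = K + 2 := rfl
  have w1 : ∀ i : Fin (m + 1), U m K (Sum.inl (i, true)) = 0 := fun _ => rfl
  have w2 : ∀ i : Fin (m + 1), U m K (Sum.inl (i, false)) = 2 * K + 3 := fun _ => rfl
  have w3 : ∀ i : Fin (m + 1), U m K (Sum.inr (Sum.inl (i, true))) = 2 * K + 3 := fun _ => rfl
  have w4 : ∀ i : Fin (m + 1), U m K (Sum.inr (Sum.inl (i, false))) = 0 := fun _ => rfl
  rw [u0, u1, w2, w4] at h4 h6
  rw [u2, u3, w1, w3] at h5 h7
  have hg : ∀ i : Fin (m + 1), x (Sum.inr (Sum.inl (i, false))) =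
      x (Sum.inr (Sum.inl (0, false))) := by
    intro i
    induction i using Fin.induction with
    | zero => rfl
    | succ k ih =>
      have a1 := h3 k
      have a2 := h2 k.succ false
      have a3 := h2 k.castSucc true
      have a4 := h1 k.castSucc
      omega
  have g0 := h1 0
  have g1 := h2 0 false
  have g2 := h1 (Fin.last m)
  have g3 := h2 (Fin.last m) true
  have g4 := hg (Fin.last m)
  have m1 : (x (Sum.inl (0, false)) + x (Sum.inr (Sum.inl (0, false)))) * (K + 1) =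
      (2 * K + 3) * (K + 1) := by rw [g1]
  have m3 : (x (Sum.inl (Fin.last m, true)) + x (Sum.inr (Sum.inl (Fin.last m, true)))) * (K + 1) =
      (2 * K + 3) * (K + 1) := by rw [g3]
  have l6 : (K + 1 + 1) * x (Sum.inr (Sum.inr 0)) + (K + 1) * x (Sum.inr (Sum.inr 1)) =
      (K + 1) * (K + 1 + 1) := by linarith
  have l7 : (K + 1 + 1) * x (Sum.inr (Sum.inr 2)) + (K + 1) * x (Sum.inr (Sum.inr 3)) =
      (K + 1) * (K + 1 + 1) := by linarith
  have hcase : (x (Sum.inr (Sum.inl (0, false))) = 0 ∧ x (Sum.inr (Sum.inr 0)) = K + 1 ∧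
      x (Sum.inr (Sum.inr 1)) = 0 ∧ x (Sum.inr (Sum.inr 2)) = 0 ∧
        x (Sum.inr (Sum.inr 3)) = K + 2) ∨
      (x (Sum.inr (Sum.inl (0, false))) = 2 * K + 3 ∧ x (Sum.inr (Sum.inr 0)) = 0 ∧
      x (Sum.inr (Sum.inr 1)) = K + 2 ∧ x (Sum.inr (Sum.inr 2)) = K + 1 ∧
        x (Sum.inr (Sum.inr 3)) = 0) := by
    rcases lin_solve (K + 1) _ _ (by omega) l6 with ⟨a0, a1⟩ | ⟨a0, a1⟩ <;>
      rcases lin_solve (K + 1) _ _ (by omega) l7 with ⟨b0, b1⟩ | ⟨b0, b1⟩ <;>
      rw [a0, a1] at h4 <;> rw [b0, b1] at h5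
    · exfalso
      have e1 : x (Sum.inr (Sum.inl (0, false))) = 0 := by linarith
      have e2 : x (Sum.inr (Sum.inl (Fin.last m, true))) = 0 := by linarith
      omega
    · left
      have e1 : x (Sum.inr (Sum.inl (0, false))) = 0 := by linarith
      exact ⟨e1, a0, a1, b0, by omega⟩
    · right
      have e1 : x (Sum.inr (Sum.inl (0, false))) = 2 * K + 3 := by linarith
      exact ⟨e1, a0, by omega, b0, b1⟩
    · exfalso
      have e1 : x (Sum.inr (Sum.inl (0, false))) = 2 * K + 3 := by linarith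
      have e2 : x (Sum.inr (Sum.inl (Fin.last m, true))) = 2 * K + 3 := by linarith
      omega
  rcases hcase with ⟨c0, c1, c2, c3, c4⟩ | ⟨c0, c1, c2, c3, c4⟩
  · left
    funext k
    rcases k with ⟨i, s⟩ | ⟨i, s⟩ | k
    · have b1 := hg i
      have b2 := h1 i
      have b3 := h2 i s
      cases s
      · change x (Sum.inl (i, false)) = 2 * K + 3
        omega
      · change x (Sum.inl (i, true)) = 0
        omega
    · have b1 := hg i
      have b2 := h1 i
      cases s
      · change x (Sum.inr (Sum.inl (i, false))) = 0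
        omega
      · change x (Sum.inr (Sum.inl (i, true))) = 2 * K + 3
        omega
    · fin_cases k
      · exact c1
      · exact c2
      · exact c3
      · exact c4
  · right
    funext k
    rcases k with ⟨i, s⟩ | ⟨i, s⟩ | k
    · have b1 := hg i
      have b2 := h1 i
      have b3 := h2 i s
      cases s
      · change x (Sum.inl (i, false)) = 0
        omega
      · change x (Sum.inl (i, true)) = 2 * K + 3
        omega
    · have b1 := hg i
      have b2 := h1 i
      cases s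
      · change x (Sum.inr (Sum.inl (i, false))) = 2 * K + 3
        omega
      · change x (Sum.inr (Sum.inl (i, true))) = 0
        omega
    · fin_cases k
      · exact c1
      · exact c2
      · exact c3
      · exact c4

end Pool.Agent.Y359.TM.Ev
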