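import Pool.Agent.Y359.TM.Ev
import Pool.Agent.H609R3.ToricFiber

set_option autoImplicit false

/-!
# The linear system for words of even length
-/

namespace Pool.Agent.Y359.TM.Ev

open Finset Pool.Agent.H609R3

variable {m K : ℕ}

/-- one transition -/
def tr (a' b' a b : L m K) : ℕ := if a' = a ∧ b' = b then 1 else 0

/-- transition counts of the words, in letters -/
def cnt (k : Ix m) (a b : L m K) : ℕ :=
  ∑ r ∈ range (2 * K + 3), tr (wf m K k r) (wf m K k (r + 1)) a b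

/-- transition counts of the initial piece of the path `pos j` -/
def W (j : Fin (m + 2)) (M : ℕ) (a b : L m K) : ℕ :=
  ∑ r ∈ range M, tr (pos j r) (pos j (r + 1)) a b

lemma cE (i : Fin (m + 1)) (s : Bool) (a b : L m K) : cnt (Sum.inl (i, s)) a b =
    tr (L.x i) (L.A (nb i s)) a b + W (nb i s) (2 * K + 2) a b := by
  unfold cnt W
  rw [Finset.sum_range_succ' _ (2 * K + 2), add_comm]
  congr 1
  change tr (L.x i) (pos (nb i s) 0) a b = _
  rw [pos_zero]

lemma cG (i : Fin (m + 1)) (s : Bool) (a b : L m K) : cnt (Sum.inr (Sum.inl (i, s))) a b =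
    tr L.z (L.x i) a b + tr (L.x i) (L.A (nb i s)) a b + W (nb i s) (2 * K + 1) a b := by
  unfold cnt W
  rw [Finset.sum_range_succ' _ (2 * K + 2), Finset.sum_range_succ' _ (2 * K + 1)]
  have e : tr (wf m K (Sum.inr (Sum.inl (i, s))) (0 + 1))
      (wf m K (Sum.inr (Sum.inl (i, s))) (0 + 1 + 1)) a b = tr (L.x i) (L.A (nb i s)) a b := by
    change tr (L.x i) (pos (nb i s) 0) a b = _
    rw [pos_zero]
  rw [e]
  have e2 : tr (wf m K (Sum.inr (Sum.inl (i, s))) 0)
      (wf m K (Sum.inr (Sum.inl (i, s))) (0 + 1)) a b = tr L.z (L.x i) a b := rfl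
  rw [e2]
  have e3 : ∀ r, tr (wf m K (Sum.inr (Sum.inl (i, s))) (r + 1 + 1))
      (wf m K (Sum.inr (Sum.inl (i, s))) (r + 1 + 1 + 1)) a b =
      tr (pos (nb i s) r) (pos (nb i s) (r + 1)) a b := fun r => rfl
  simp only [e3]
  ring

lemma W_even {j : Fin (m + 2)} (hj : en j) (a b : L m K) (q : ℕ) : W j (2 * q) a b =
    q * (tr (L.A j) (L.B j) a b + tr (L.B j) (L.A j) a b) := by
  induction q with
  | zero => simp [W]
  | succ q ih =>
    have e : 2 * (q + 1) = 2 * q + 1 + 1 := by ring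
    rw [e]
    unfold W at ih ⊢
    rw [Finset.sum_range_succ, Finset.sum_range_succ, ih, pos_en hj, pos_en hj, pos_en hj,
      if_pos (by omega), if_neg (by omega), if_pos (by omega)]
    ring

lemma W_odd {j : Fin (m + 2)} (hj : en j) (a b : L m K) (q : ℕ) : W j (2 * q + 1) a b =
    q * (tr (L.A j) (L.B j) a b + tr (L.B j) (L.A j) a b) + tr (L.A j) (L.B j) a b := by
  have h := W_even hj a b q
  unfold W at h ⊢
  rw [Finset.sum_range_succ, h, pos_en hj, pos_en hj, if_pos (by omega), if_neg (by omega)]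

lemma W_shift {j : Fin (m + 2)} (hj : en j) (a b : L m K) :
    ∑ r ∈ range (2 * K + 3), tr (pos j (r + 1)) (pos j (r + 1 + 1)) a b =
    (K + 1) * (tr (L.A j) (L.B j) a b + tr (L.B j) (L.A j) a b) + tr (L.B j) (L.A j) a b := by
  have h := W_even hj a b (K + 2)
  have e : 2 * (K + 2) = 2 * K + 3 + 1 := by ring
  rw [e] at h
  unfold W at h
  rw [Finset.sum_range_succ', pos_zero, pos_one] at h
  have : (K + 2) * (tr (L.A j) (L.B j) a b + tr (L.B j) (L.A j) a b) =
    (K + 1) * (tr (L.A j) (L.B j) a b + tr (L.B j) (L.A j) a b) + tr (L.B j) (L.A j) a b +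
      tr (L.A j) (L.B j) a b := by ring
  rw [this] at h
  exact Nat.add_right_cancel h

lemma en0 : en (0 : Fin (m + 2)) := Or.inl rfl
lemma enl : en (Fin.last (m + 1)) := Or.inr rfl

lemma c0 (a b : L m K) : cnt (Sum.inr (Sum.inr 0)) a b =
    (K + 1) * (tr (L.A 0) (L.B 0) a b + tr (L.B 0) (L.A 0) a b) + tr (L.A 0) (L.B 0) a b :=
  W_odd en0 a b (K + 1)

lemma c1 (a b : L m K) : cnt (Sum.inr (Sum.inr 1)) a b =
    (K + 1) * (tr (L.A 0) (L.B 0) a b + tr (L.B 0) (L.A 0) a b) + tr (L.B 0) (L.A 0) a b :=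
  W_shift en0 a b

lemma c2 (a b : L m K) : cnt (Sum.inr (Sum.inr 2)) a b =
    (K + 1) * (tr (L.A (Fin.last (m + 1))) (L.B (Fin.last (m + 1))) a b +
      tr (L.B (Fin.last (m + 1))) (L.A (Fin.last (m + 1))) a b) +
      tr (L.A (Fin.last (m + 1))) (L.B (Fin.last (m + 1))) a b :=
  W_odd enl a b (K + 1)

lemma c3 (a b : L m K) : cnt (Sum.inr (Sum.inr 3)) a b =
    (K + 1) * (tr (L.A (Fin.last (m + 1))) (L.B (Fin.last (m + 1))) a b +
      tr (L.B (Fin.last (m + 1))) (L.A (Fin.last (m + 1))) a b) +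
      tr (L.B (Fin.last (m + 1))) (L.A (Fin.last (m + 1))) a b :=
  W_shift enl a b

/-- the last transition of the longer piece -/
def ell (j : Fin (m + 2)) (a b : L m K) : ℕ := tr (pos j (2 * K + 1)) (pos j (2 * K + 2)) a b

lemma W_succ (j : Fin (m + 2)) (a b : L m K) :
    W j (2 * K + 2) a b = W j (2 * K + 1) a b + ell j a b := by
  unfold W ell
  rw [Finset.sum_range_succ]

lemma ell_en {j : Fin (m + 2)} (hj : en j) (a b : L m K) :
    ell j a b = tr (L.B j) (L.A j) a b := by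
  unfold ell
  rw [pos_en hj, pos_en hj, if_neg (by omega), if_pos (by omega)]

/-- multiplicities of the first element -/
def U (m K : ℕ) : Ix m → ℕ
  | Sum.inl (_, s) => if s then 0 else 2 * K + 3
  | Sum.inr (Sum.inl (_, s)) => if s then 2 * K + 3 else 0
  | Sum.inr (Sum.inr k) => (![K + 1, 0, 0, K + 2] : Fin 4 → ℕ) k

/-- multiplicities of the second element -/
def V (m K : ℕ) : Ix m → ℕ
  | Sum.inl (_, s) => if s then 2 * K + 3 else 0
  | Sum.inr (Sum.inl (_, s)) => if s then 0 else 2 * K + 3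
  | Sum.inr (Sum.inr k) => (![0, K + 2, K + 1, 0] : Fin 4 → ℕ) k

lemma sum_U : ∑ k : Ix m, U m K k = (2 * m + 3) * (2 * K + 3) := by
  rw [Pool.Agent.Y359.TM.Four.sumIx]
  simp [U]
  ring

lemma sum_V : ∑ k : Ix m, V m K k = (2 * m + 3) * (2 * K + 3) := by
  rw [Pool.Agent.Y359.TM.Four.sumIx]
  simp [V]
  ring

lemma UV_disj (k : Ix m) : U m K k = 0 ∨ V m K k = 0 := by
  rcases k with ⟨i, s⟩ | ⟨i, s⟩ | k
  · cases s <;> simp [U, V]
  · cases s <;> simp [U, V]
  · fin_cases k <;> simp [U, V]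

/-- The two vectors have the same counts. -/
lemma UV_counts (a b : L m K) : ∑ k, U m K k * cnt k a b = ∑ k, V m K k * cnt k a b := by
  rw [Pool.Agent.Y359.TM.Four.sumIx, Pool.Agent.Y359.TM.Four.sumIx]
  simp only [cE, cG, c0, c1, c2, c3, nb, W_succ]
  have u0 : (U m K (Sum.inr (Sum.inr 0))) = K + 1 := rfl
  have u1 : (U m K (Sum.inr (Sum.inr 1))) = 0 := rfl
  have u2 : (U m K (Sum.inr (Sum.inr 2))) = 0 := rfl
  have u3 : (U m K (Sum.inr (Sum.inr 3))) = K + 2 := rfl
  have v0 : (V m K (Sum.inr (Sum.inr 0))) = 0 := rfl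
  have v1 : (V m K (Sum.inr (Sum.inr 1))) = K + 2 := rfl
  have v2 : (V m K (Sum.inr (Sum.inr 2))) = K + 1 := rfl
  have v3 : (V m K (Sum.inr (Sum.inr 3))) = 0 := rfl
  have w1 : ∀ i : Fin (m + 1), U m K (Sum.inl (i, true)) = 0 := fun _ => rfl
  have w2 : ∀ i : Fin (m + 1), U m K (Sum.inl (i, false)) = 2 * K + 3 := fun _ => rfl
  have w3 : ∀ i : Fin (m + 1), U m K (Sum.inr (Sum.inl (i, true))) = 2 * K + 3 := fun _ => rfl
  have w4 : ∀ i : Fin (m + 1), U m K (Sum.inr (Sum.inl (i, false))) = 0 := fun _ => rfl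
  have y1 : ∀ i : Fin (m + 1), V m K (Sum.inl (i, true)) = 2 * K + 3 := fun _ => rfl
  have y2 : ∀ i : Fin (m + 1), V m K (Sum.inl (i, false)) = 0 := fun _ => rfl
  have y3 : ∀ i : Fin (m + 1), V m K (Sum.inr (Sum.inl (i, true))) = 0 := fun _ => rfl
  have y4 : ∀ i : Fin (m + 1), V m K (Sum.inr (Sum.inl (i, false))) = 2 * K + 3 := fun _ => rfl
  simp only [u0, u1, u2, u3, v0, v1, v2, v3, w1, w2, w3, w4, y1, y2, y3, y4, zero_mul, zero_add,
    add_zero]
  have key := (Fin.sum_univ_castSucc (fun j : Fin (m + 2) => ell j a b)).symm.trans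
    (Fin.sum_univ_succ (fun j : Fin (m + 2) => ell j a b))
  simp only [ell_en en0, ell_en enl] at key
  simp only [← Finset.mul_sum, Finset.sum_add_distrib]
  zify at key ⊢
  linear_combination (2 * (K : ℤ) + 3) * key

/-- tail of a letter -/
def ix : L m K → Option (Fin (m + 2))
  | L.z => none
  | L.c => none
  | L.x _ => none
  | L.A j => some j
  | L.B j => some j
  | L.t j _ => some j

/-- place of a letter -/
def rk : L m K → ℕ
  | L.z => 0
  | L.c => 0
  | L.x _ => 0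
  | L.A _ => 0
  | L.B _ => 1
  | L.t _ k => k + 2

lemma ix_pos (j : Fin (m + 2)) (r : ℕ) (hr : r < 2 * K + 2) : ix (pos j r : L m K) = some j := by
  unfold pos
  split_ifs
  · rfl
  · rfl
  · rfl
  · rfl
  · rfl
  · omega

lemma rk_pos {j : Fin (m + 2)} (hj : ¬ en j) (r : ℕ) (hr : r < 2 * K + 2) :
    rk (pos j r : L m K) = r := by
  unfold pos
  rw [if_neg hj]
  split_ifs with h1 h2 h3
  · rw [h1]; rfl
  · rw [h2]; rfl
  · simp only [rk]; omega
  · omega

lemma pos_ne_z (j : Fin (m + 2)) (r : ℕ) : (pos j r : L m K) ≠ L.z := by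
  unfold pos; split_ifs <;> simp

lemma pos_ne_x (j : Fin (m + 2)) (r : ℕ) (i : Fin (m + 1)) : (pos j r : L m K) ≠ L.x i := by
  unfold pos; split_ifs <;> simp

lemma W_z (j : Fin (m + 2)) (M : ℕ) (b : L m K) : W j M L.z b = 0 := by
  unfold W
  apply Finset.sum_eq_zero
  intro r _
  simp [tr, pos_ne_z]

lemma W_x (j : Fin (m + 2)) (M : ℕ) (i : Fin (m + 1)) (b : L m K) : W j M (L.x i) b = 0 := by
  unfold W
  apply Finset.sum_eq_zero
  intro r _
  simp [tr, pos_ne_x]

lemma W_ne (j j₀ : Fin (m + 2)) (h : j ≠ j₀) (M : ℕ) (hM : M ≤ 2 * K + 2) (a b : L m K)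
    (ha : ix a = some j₀) : W j M a b = 0 := by
  unfold W
  apply Finset.sum_eq_zero
  intro r hr
  rw [Finset.mem_range] at hr
  unfold tr
  rw [if_neg]
  rintro ⟨h1, -⟩
  have h2 := ix_pos (K := K) j r (by omega)
  rw [h1, ha] at h2
  exact h (Option.some.inj h2).symm

end Pool.Agent.Y359.TM.Ev
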