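import Pool.Agent.H609R3.ToricMC

set_option autoImplicit false

/-!
# Words of length four over many letters
-/

namespace Pool.Agent.Y359.TM.Four

open Finset Pool.Agent.H609R3

/-- the letters -/
inductive L (m : ℕ) : Type
  | z : L m
  | c : L m
  | x (i : Fin (m + 1)) : L m
  | A (j : Fin (m + 2)) : L m
  | B (j : Fin (m + 2)) : L m
  deriving DecidableEq

variable {m : ℕ}

/-- the letter after `B j` -/
def n (j : Fin (m + 2)) : L m :=
  if j = 0 then L.A 0 else if j = Fin.last (m + 1) then L.A (Fin.last (m + 1)) else L.c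

lemma n_zero : n (0 : Fin (m + 2)) = L.A 0 := by simp [n]

lemma n_last : n (Fin.last (m + 1)) = (L.A (Fin.last (m + 1)) : L m) := by
  have h : Fin.last (m + 1) ≠ 0 := by
    intro h
    have := congrArg Fin.val h
    simp at this
  simp [n, h]

/-- numbers of the letters -/
def num : L m → ℕ
  | L.z => 0
  | L.c => 1
  | L.x i => 2 + i
  | L.A j => m + 3 + j
  | L.B j => 2 * m + 5 + j

lemma num_lt (l : L m) : num l < 3 * m + 7 := by
  cases l <;> simp only [num] <;> omega

lemma num_inj : Function.Injective (num : L m → ℕ) := by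
  intro a b h
  cases a <;> cases b <;> simp only [num] at h <;> first | rfl | omega | (congr 1; apply Fin.ext; omega)

section code

variable {S : ℕ} (hS : 3 * m + 7 ≤ S)

/-- the letters inside `Fin S` -/
def cd (l : L m) : Fin S := ⟨num l, lt_of_lt_of_le (num_lt l) hS⟩

lemma cd_inj : Function.Injective (cd hS) := by
  intro a b h
  exact num_inj (congrArg Fin.val h)

end code

/-- the transitions -/
inductive E : L m → L m → Prop
  | zx (i : Fin (m + 1)) : E L.z (L.x i)
  | xl (i : Fin (m + 1)) : E (L.x i) (L.A i.castSucc)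
  | xr (i : Fin (m + 1)) : E (L.x i) (L.A i.succ)
  | ab (j : Fin (m + 2)) : E (L.A j) (L.B j)
  | bn (j : Fin (m + 2)) : E (L.B j) (n j)

lemma E_z {w : L m} (h : E L.z w) : ∃ i, w = L.x i := by cases h; exact ⟨_, rfl⟩
lemma E_c {w : L m} (h : E L.c w) : False := by cases h
lemma E_x {i : Fin (m + 1)} {w : L m} (h : E (L.x i) w) : w = L.A i.castSucc ∨ w = L.A i.succ := by
  cases h
  · exact Or.inl rfl
  · exact Or.inr rfl
lemma E_A {j : Fin (m + 2)} {w : L m} (h : E (L.A j) w) : w = L.B j := by cases h; rfl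
lemma E_B {j : Fin (m + 2)} {w : L m} (h : E (L.B j) w) : w = n j := by cases h; rfl

lemma E_ne {a b : L m} (h : E a b) : a ≠ b := by
  cases h with
  | zx i => simp
  | xl i => simp
  | xr i => simp
  | ab j => simp
  | bn j => unfold n; split_ifs <;> simp

/-- indices of the words -/
abbrev Ix (m : ℕ) : Type := (Fin (m + 1) × Bool) ⊕ ((Fin (m + 1) × Bool) ⊕ Fin 4)

/-- left or right neighbour -/
def nb (i : Fin (m + 1)) : Bool → Fin (m + 2)
  | false => i.castSucc
  | true => i.succ

/-- the letters of the words -/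
def lw : Ix m → Fin 4 → L m
  | Sum.inl (i, s) => ![L.x i, L.A (nb i s), L.B (nb i s), n (nb i s)]
  | Sum.inr (Sum.inl (i, s)) => ![L.z, L.x i, L.A (nb i s), L.B (nb i s)]
  | Sum.inr (Sum.inr k) =>
    (![![L.A 0, L.B 0, L.A 0, L.B 0], ![L.B 0, L.A 0, L.B 0, L.A 0],
      ![L.A (Fin.last (m + 1)), L.B (Fin.last (m + 1)), L.A (Fin.last (m + 1)),
        L.B (Fin.last (m + 1))],
      ![L.B (Fin.last (m + 1)), L.A (Fin.last (m + 1)), L.B (Fin.last (m + 1)),
        L.A (Fin.last (m + 1))]] : Fin 4 → Fin 4 → L m) k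

lemma E_B0 : E (L.B 0 : L m) (L.A 0) := by
  have := E.bn (m := m) 0
  rwa [n_zero] at this

lemma E_Bl : E (L.B (Fin.last (m + 1)) : L m) (L.A (Fin.last (m + 1))) := by
  have := E.bn (m := m) (Fin.last (m + 1))
  rwa [n_last] at this

lemma E_xn (i : Fin (m + 1)) (s : Bool) : E (L.x i) (L.A (nb i s)) := by
  cases s
  · exact E.xl i
  · exact E.xr i

lemma lw_step (k : Ix m) : E (lw k 0) (lw k 1) ∧ E (lw k 1) (lw k 2) ∧ E (lw k 2) (lw k 3) := by
  rcases k with ⟨i, s⟩ | ⟨i, s⟩ | k
  · exact ⟨E_xn i s, E.ab _, E.bn _⟩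
  · exact ⟨E.zx i, E_xn i s, E.ab _⟩
  · fin_cases k
    · exact ⟨E.ab _, E_B0, E.ab _⟩
    · exact ⟨E_B0, E.ab _, E_B0⟩
    · exact ⟨E.ab _, E_Bl, E.ab _⟩
    · exact ⟨E_Bl, E.ab _, E_Bl⟩

/-- classification -/
lemma classify (g : Fin 4 → L m) (h0 : E (g 0) (g 1)) (h1 : E (g 1) (g 2)) (h2 : E (g 2) (g 3)) :
    ∃ k : Ix m, g = lw k := by
  have ext : ∀ k : Ix m, g 0 = lw k 0 → g 1 = lw k 1 → g 2 = lw k 2 → g 3 = lw k 3 →
      ∃ k : Ix m, g = lw k := by
    intro k a0 a1 a2 a3
    refine ⟨k, ?_⟩
    funext t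
    fin_cases t
    · exact a0
    · exact a1
    · exact a2
    · exact a3
  generalize e0 : g 0 = g0 at *
  generalize e1 : g 1 = g1 at *
  generalize e2 : g 2 = g2 at *
  generalize e3 : g 3 = g3 at *
  cases g0 with
  | z =>
    obtain ⟨i, rfl⟩ := E_z h0
    rcases E_x h1 with rfl | rfl
    · exact ext (Sum.inr (Sum.inl (i, false))) rfl rfl rfl (E_A h2)
    · exact ext (Sum.inr (Sum.inl (i, true))) rfl rfl rfl (E_A h2)
  | c => exact absurd h0 (fun h => E_c h)
  | x i =>
    rcases E_x h0 with rfl | rfl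
    · have := E_A h1
      subst this
      exact ext (Sum.inl (i, false)) rfl rfl rfl (E_B h2)
    · have := E_A h1
      subst this
      exact ext (Sum.inl (i, true)) rfl rfl rfl (E_B h2)
  | A j =>
    have := E_A h0
    subst this
    have := E_B h1
    subst this
    by_cases hj : j = 0
    · subst hj
      rw [n_zero] at h2 ext
      exact ext (Sum.inr (Sum.inr 0)) rfl rfl rfl (E_A h2)
    · by_cases hj' : j = Fin.last (m + 1)
      · subst hj'
        rw [n_last] at h2 ext
        exact ext (Sum.inr (Sum.inr 2)) rfl rfl rfl (E_A h2)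
      · have : n j = L.c := by simp [n, hj, hj']
        rw [this] at h2
        exact absurd h2 (fun h => E_c h)
  | B j =>
    have := E_B h0
    subst this
    by_cases hj : j = 0
    · subst hj
      rw [n_zero] at h1 ext
      have := E_A h1
      subst this
      have := E_B h2
      subst this
      rw [n_zero] at ext
      exact ext (Sum.inr (Sum.inr 1)) rfl rfl rfl rfl
    · by_cases hj' : j = Fin.last (m + 1)
      · subst hj'
        rw [n_last] at h1 ext
        have := E_A h1
        subst this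
        have := E_B h2
        subst this
        rw [n_last] at ext
        exact ext (Sum.inr (Sum.inr 3)) rfl rfl rfl rfl
      · have : n j = L.c := by simp [n, hj, hj']
        rw [this] at h1
        exact absurd h1 (fun h => E_c h)

lemma nb_inj (i : Fin (m + 1)) (s s' : Bool) (h : nb i s = nb i s') : s = s' := by
  have h1 := congrArg Fin.val h
  cases s <;> cases s' <;> simp [nb] at h1 ⊢

lemma last_ne : Fin.last (m + 1) ≠ 0 := by
  intro h
  have := congrArg Fin.val h
  simp at this

lemma lw_inj : Function.Injective (lw : Ix m → Fin 4 → L m) := by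
  intro k k' h
  have h0 := congrFun h 0
  have h1 := congrFun h 1
  have h2 := congrFun h 2
  rcases k with ⟨i, s⟩ | ⟨i, s⟩ | k <;> rcases k' with ⟨i', s'⟩ | ⟨i', s'⟩ | k'
  · have a : i = i' := L.x.inj h0
    subst a
    have b : s = s' := nb_inj _ _ _ (L.A.inj h1)
    subst b
    rfl
  · exact absurd h0 (by simp [lw])
  · exact absurd h0 (by fin_cases k' <;> simp [lw])
  · exact absurd h0 (by simp [lw])
  · have a : i = i' := L.x.inj h1
    subst a
    have b : s = s' := nb_inj _ _ _ (L.A.inj h2)
    subst b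
    rfl
  · exact absurd h0 (by fin_cases k' <;> simp [lw])
  · exact absurd h0 (by fin_cases k <;> simp [lw])
  · exact absurd h0 (by fin_cases k <;> simp [lw])
  · have hl := last_ne (m := m)
    fin_cases k <;> fin_cases k' <;> first | rfl | (exfalso; revert h0; simp [lw, hl, hl.symm])

end Pool.Agent.Y359.TM.Four
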