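import Pool.Agent.Y359.TM.FourSol

set_option autoImplicit false

/-!
# The fibre for words of length four over `S ≥ 3 m + 7` letters
-/

namespace Pool.Agent.Y359.TM.Four

open Finset Pool.Agent.H609R3

lemma tc4 {S : ℕ} (w : Word S 4) (e : Fin S × Fin S) : transCount w e =
    (if w.1 0 = e.1 ∧ w.1 1 = e.2 then 1 else 0) + (if w.1 1 = e.1 ∧ w.1 2 = e.2 then 1 else 0) +
      (if w.1 2 = e.1 ∧ w.1 3 = e.2 then 1 else 0) := by
  unfold transCount
  rw [Finset.card_filter]
  change ∑ t : Fin 3, _ = _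
  rw [Fin.sum_univ_three]
  rfl

section fibre

variable {m S : ℕ} (hS : 3 * m + 7 ≤ S)

/-- the words over `Fin S` -/
def ew (k : Ix m) : Word S 4 :=
  ⟨fun t => cd hS (lw k t), by
    intro t h
    obtain ⟨h0, h1, h2⟩ := lw_step k
    have : t = 0 ∨ t = 1 ∨ t = 2 := by omega
    rcases this with rfl | rfl | rfl
    · exact fun e => E_ne h0 (cd_inj hS e)
    · exact fun e => E_ne h1 (cd_inj hS e)
    · exact fun e => E_ne h2 (cd_inj hS e)⟩

lemma ew_inj : Function.Injective (ew hS : Ix m → Word S 4) := by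
  intro k k' h
  apply lw_inj
  funext t
  exact cd_inj hS (congrFun (congrArg Subtype.val h) t)

lemma tc_ew (k : Ix m) (a b : L m) : transCount (ew hS k) (cd hS a, cd hS b) = cnt k a b := by
  rw [tc4]
  unfold cnt ew
  simp only [(cd_inj hS).eq_iff]

lemma tc_zero (k : Ix m) (e : Fin S × Fin S)
    (he : ∀ a b : L m, E a b → e ≠ (cd hS a, cd hS b)) : transCount (ew hS k) e = 0 := by
  obtain ⟨h0, h1, h2⟩ := lw_step k
  rw [tc4]
  have g : ∀ s t : Fin 4, E (lw k s) (lw k t) →
      ¬ ((ew hS k).1 s = e.1 ∧ (ew hS k).1 t = e.2) := by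
    intro s t hE h
    exact he _ _ hE (Prod.ext h.1.symm h.2.symm)
  rw [if_neg (g 0 1 h0), if_neg (g 1 2 h1), if_neg (g 2 3 h2)]

lemma word_classify (w : Word S 4)
    (hw : ∀ (t : ℕ) (h : t + 1 < 4), ∃ a b : L m, E a b ∧
      w.1 ⟨t, Nat.lt_of_succ_lt h⟩ = cd hS a ∧ w.1 ⟨t + 1, h⟩ = cd hS b) :
    ∃ k, w = ew hS k := by
  obtain ⟨a0, a1, e0, p0, p1⟩ := hw 0 (by norm_num)
  obtain ⟨b1, b2, e1, q1, q2⟩ := hw 1 (by norm_num)
  obtain ⟨d2, d3, e2, r2, r3⟩ := hw 2 (by norm_num)
  have h1 : b1 = a1 := cd_inj hS (q1.symm.trans p1)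
  have h2 : d2 = b2 := cd_inj hS (r2.symm.trans q2)
  subst h1 h2
  obtain ⟨k, hk⟩ := classify (![a0, b1, d2, d3] : Fin 4 → L m) e0 e1 e2
  refine ⟨k, ?_⟩
  apply Subtype.ext
  funext t
  change w.1 t = cd hS (lw k t)
  rw [← hk]
  fin_cases t
  · exact p0
  · exact p1
  · exact q2
  · exact r3

/-- The vector supported on the words with given multiplicities. -/
noncomputable def lift (x : Ix m → ℕ) : Word S 4 → ℕ :=
  fun ω => ∑ k, if ew hS k = ω then x k else 0

lemma lift_ew (x : Ix m → ℕ) (k : Ix m) : lift hS x (ew hS k) = x k := by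
  unfold lift
  rw [Finset.sum_eq_single k]
  · simp
  · intro j _ hj
    rw [if_neg]
    intro h
    exact hj (ew_inj hS h)
  · simp

lemma lift_other (x : Ix m → ℕ) (ω : Word S 4) (h : ∀ k, ω ≠ ew hS k) : lift hS x ω = 0 := by
  unfold lift
  apply Finset.sum_eq_zero
  intro i _
  rw [if_neg (fun h' => h i h'.symm)]

lemma sum_lift (x : Ix m → ℕ) (F : Word S 4 → ℕ) :
    ∑ ω, lift hS x ω * F ω = ∑ k, x k * F (ew hS k) := by
  symm
  apply Fintype.sum_of_injective (ew hS) (ew_inj hS)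
  · intro ω hω
    rw [lift_other, zero_mul]
    intro i h
    exact hω ⟨i, h.symm⟩
  · intro i
    rw [lift_ew hS]

lemma sum_lift' (x : Ix m → ℕ) : ∑ ω, lift hS x ω = ∑ k, x k := by
  have := sum_lift hS x (fun _ => 1)
  simpa using this

lemma counts_eq (e : Fin S × Fin S) :
    ∑ ω, lift hS U ω * transCount ω e = ∑ ω, lift hS V ω * transCount ω e := by
  rw [sum_lift hS _ (fun ω => transCount ω e), sum_lift hS _ (fun ω => transCount ω e)]
  by_cases he : ∃ a b : L m, E a b ∧ e = (cd hS a, cd hS b)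
  · obtain ⟨a, b, _, rfl⟩ := he
    simp only [tc_ew]
    exact UV_counts a b
  · push Not at he
    simp [tc_zero hS _ e he]

/-- **The fibre has exactly two elements.** -/
theorem fibre (w : Word S 4 → ℕ) (hw : SameCounts w (lift hS U)) :
    w = lift hS U ∨ w = lift hS V := by
  have hzero : ∀ ω, (∀ k, ω ≠ ew hS k) → w ω = 0 := by
    intro ω hω
    by_contra hne
    have : ¬ (∀ (t : ℕ) (h : t + 1 < 4), ∃ a b : L m, E a b ∧
      ω.1 ⟨t, Nat.lt_of_succ_lt h⟩ = cd hS a ∧ ω.1 ⟨t + 1, h⟩ = cd hS b) := by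
      intro h
      obtain ⟨i, hi⟩ := word_classify hS ω h
      exact hω i hi
    push Not at this
    obtain ⟨t, ht, hbad⟩ := this
    set e : Fin S × Fin S := (ω.1 ⟨t, Nat.lt_of_succ_lt ht⟩, ω.1 ⟨t + 1, ht⟩) with he
    have hne' : e.1 ≠ e.2 := ω.2 t ht
    have h1 := hw e hne'
    rw [sum_lift hS _ (fun ω => transCount ω e)] at h1
    have h2 : ∀ k, transCount (ew hS k) e = 0 := by
      intro k
      apply tc_zero hS k e
      intro a b hab heq
      exact hbad a b hab (congrArg Prod.fst heq) (congrArg Prod.snd heq)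
    simp only [h2, mul_zero, Finset.sum_const_zero] at h1
    rw [Finset.sum_eq_zero_iff] at h1
    have h3 := h1 ω (Finset.mem_univ _)
    have h4 := transCount_pos ω t ht
    rcases Nat.mul_eq_zero.1 h3 with h5 | h5
    · exact hne h5
    · rw [h5] at h4; exact absurd h4 (lt_irrefl _)
  have hlift : w = lift hS (fun k => w (ew hS k)) := by
    funext ω
    by_cases h : ∃ k, ω = ew hS k
    · obtain ⟨k, rfl⟩ := h
      rw [lift_ew hS]
    · push Not at h
      rw [hzero ω h, lift_other hS _ ω h]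
  have hsys : ∀ a b : L m, E a b →
      ∑ k, w (ew hS k) * cnt k a b = ∑ k, U k * cnt k a b := by
    intro a b hab
    have hne : (cd hS a : Fin S) ≠ cd hS b := fun h => E_ne hab (cd_inj hS h)
    have h1 := hw (cd hS a, cd hS b) hne
    rw [hlift] at h1
    rw [sum_lift hS _ (fun ω => transCount ω (cd hS a, cd hS b)),
      sum_lift hS _ (fun ω => transCount ω (cd hS a, cd hS b))] at h1
    simpa only [tc_ew] using h1
  rcases system _ hsys with h | h
  · left; rw [hlift, h]
  · right; rw [hlift, h]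

include hS in
/-- **Summary.** -/
theorem summary : ∃ (A B : (Word S 4 → ℕ) → Prop)
    (u v : Word S 4 → ℕ), A u ∧ B v ∧ SameCounts v u ∧
      (∀ w, SameCounts w u → A w ∨ B w) ∧
      (∀ w, SameCounts w u → A w → ∑ ω, w ω = 6 * m + 9) ∧
      (∀ w, SameCounts w u → B w → ∑ ω, w ω = 6 * m + 9) ∧
      (∀ w w', SameCounts w u → SameCounts w' u → A w → B w' → ∀ ω, w ω = 0 ∨ w' ω = 0) := by
  refine ⟨fun w => w = lift hS U, fun w => w = lift hS V, lift hS U, lift hS V, rfl, rfl,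
    ?_, ?_, ?_, ?_, ?_⟩
  · intro e _
    exact (counts_eq hS e).symm
  · exact fun w hw => fibre hS w hw
  · rintro w _ rfl
    rw [sum_lift' hS, sum_U]
  · rintro w _ rfl
    rw [sum_lift' hS, sum_V]
  · rintro w w' _ _ rfl rfl ω
    by_cases h : ∃ k, ω = ew hS k
    · obtain ⟨k, rfl⟩ := h
      rw [lift_ew hS, lift_ew hS]
      exact UV_disj k
    · push Not at h
      left
      exact lift_other hS _ ω h

end fibre

end Pool.Agent.Y359.TM.Four
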