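import Pool.Agent.Y359.TM.FourSys

set_option autoImplicit false

/-!
# The solutions of the linear system for words of length four
-/

namespace Pool.Agent.Y359.TM.Four

open Finset Pool.Agent.H609R3

variable {m : ℕ}

lemma tr_x (i i₀ : Fin (m + 1)) (s s₀ : Bool) :
    tr (L.x i) (L.A (nb i s)) (L.x i₀) (L.A (nb i₀ s₀)) =
      if i = i₀ then (if s = s₀ then 1 else 0) else 0 := by
  unfold tr
  by_cases h : i = i₀
  · subst h
    by_cases h' : s = s₀
    · subst h'; simp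
    · have h2 : nb i s ≠ nb i s₀ := fun h'' => h' (nb_inj _ _ _ h'')
      simp [h', h2]
  · simp [h]

lemma tr_A (j j₀ : Fin (m + 2)) : tr (L.A j : L m) (L.B j) (L.A j₀) (L.B j₀) =
    if j = j₀ then 1 else 0 := by
  unfold tr
  by_cases h : j = j₀
  · subst h; simp
  · simp [h]

lemma tr_B (j j₀ : Fin (m + 2)) : tr (L.B j : L m) (n j) (L.B j₀) (n j₀) =
    if j = j₀ then 1 else 0 := by
  unfold tr
  by_cases h : j = j₀
  · subst h; simp
  · simp [h]

lemma tr_B0 (j₀ : Fin (m + 2)) : tr (L.B 0 : L m) (L.A 0) (L.B j₀) (n j₀) =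
    if 0 = j₀ then 1 else 0 := by
  rw [← tr_B, n_zero]

lemma tr_Bl (j₀ : Fin (m + 2)) : tr (L.B (Fin.last (m + 1)) : L m) (L.A (Fin.last (m + 1)))
    (L.B j₀) (n j₀) = if Fin.last (m + 1) = j₀ then 1 else 0 := by
  rw [← tr_B, n_last]

lemma tr_z (i i₀ : Fin (m + 1)) : tr (L.z : L m) (L.x i) L.z (L.x i₀) =
    if i = i₀ then 1 else 0 := by
  unfold tr; simp

lemma t_zx (l : L m) (i : Fin (m + 1)) (l' : L m) : tr L.z l (L.x i) l' = 0 := by simp [tr]
lemma t_zA (l : L m) (j : Fin (m + 2)) (l' : L m) : tr L.z l (L.A j) l' = 0 := by simp [tr]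
lemma t_zB (l : L m) (j : Fin (m + 2)) (l' : L m) : tr L.z l (L.B j) l' = 0 := by simp [tr]
lemma t_xz (l : L m) (i : Fin (m + 1)) (l' : L m) : tr (L.x i) l L.z l' = 0 := by simp [tr]
lemma t_xA (l : L m) (i : Fin (m + 1)) (j : Fin (m + 2)) (l' : L m) :
    tr (L.x i) l (L.A j) l' = 0 := by simp [tr]
lemma t_xB (l : L m) (i : Fin (m + 1)) (j : Fin (m + 2)) (l' : L m) :
    tr (L.x i) l (L.B j) l' = 0 := by simp [tr]
lemma t_Az (l : L m) (j : Fin (m + 2)) (l' : L m) : tr (L.A j) l L.z l' = 0 := by simp [tr]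
lemma t_Ax (l : L m) (i : Fin (m + 1)) (j : Fin (m + 2)) (l' : L m) :
    tr (L.A j) l (L.x i) l' = 0 := by simp [tr]
lemma t_AB (l : L m) (i j : Fin (m + 2)) (l' : L m) : tr (L.A j) l (L.B i) l' = 0 := by simp [tr]
lemma t_Bz (l : L m) (j : Fin (m + 2)) (l' : L m) : tr (L.B j) l L.z l' = 0 := by simp [tr]
lemma t_Bx (l : L m) (i : Fin (m + 1)) (j : Fin (m + 2)) (l' : L m) :
    tr (L.B j) l (L.x i) l' = 0 := by simp [tr]
lemma t_BA (l : L m) (i j : Fin (m + 2)) (l' : L m) : tr (L.B j) l (L.A i) l' = 0 := by simp [tr]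

lemma ev_z (x : Ix m → ℕ) (i₀ : Fin (m + 1)) : ∑ k, x k * cnt k L.z (L.x i₀) =
    x (Sum.inr (Sum.inl (i₀, true))) + x (Sum.inr (Sum.inl (i₀, false))) := by
  rw [sumIx]
  simp only [cE, cG, c0, c1, c2, c3, t_xz, t_Az, t_Bz, tr_z, add_zero, mul_zero,
    Finset.sum_const_zero, zero_add]
  simp [Finset.sum_add_distrib]

lemma ev_x (x : Ix m → ℕ) (i₀ : Fin (m + 1)) (s₀ : Bool) :
    ∑ k, x k * cnt k (L.x i₀) (L.A (nb i₀ s₀)) =
    x (Sum.inl (i₀, s₀)) + x (Sum.inr (Sum.inl (i₀, s₀))) := by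
  rw [sumIx]
  simp only [cE, cG, c0, c1, c2, c3, t_zx, t_Ax, t_Bx, tr_x, add_zero, mul_zero,
    Finset.sum_const_zero, zero_add]
  cases s₀ <;> simp

lemma ev_A (x : Ix m → ℕ) (j₀ : Fin (m + 2)) : ∑ k, x k * cnt k (L.A j₀) (L.B j₀) =
    ∑ i : Fin (m + 1), (x (Sum.inl (i, true)) * (if i.succ = j₀ then 1 else 0) +
      x (Sum.inl (i, false)) * (if i.castSucc = j₀ then 1 else 0)) +
    ∑ i : Fin (m + 1), (x (Sum.inr (Sum.inl (i, true))) * (if i.succ = j₀ then 1 else 0) +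
      x (Sum.inr (Sum.inl (i, false))) * (if i.castSucc = j₀ then 1 else 0)) +
    ((if 0 = j₀ then 1 else 0) * (2 * x (Sum.inr (Sum.inr 0)) + x (Sum.inr (Sum.inr 1))) +
      (if Fin.last (m + 1) = j₀ then 1 else 0) *
        (2 * x (Sum.inr (Sum.inr 2)) + x (Sum.inr (Sum.inr 3)))) := by
  rw [sumIx]
  simp only [cE, cG, c0, c1, c2, c3, t_zA, t_xA, t_BA, tr_A, add_zero, mul_zero,
    Finset.sum_const_zero, zero_add, nb]
  ring

lemma ev_B (x : Ix m → ℕ) (j₀ : Fin (m + 2)) : ∑ k, x k * cnt k (L.B j₀) (n j₀) =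
    ∑ i : Fin (m + 1), (x (Sum.inl (i, true)) * (if i.succ = j₀ then 1 else 0) +
      x (Sum.inl (i, false)) * (if i.castSucc = j₀ then 1 else 0)) +
    ((if 0 = j₀ then 1 else 0) * (x (Sum.inr (Sum.inr 0)) + 2 * x (Sum.inr (Sum.inr 1))) +
      (if Fin.last (m + 1) = j₀ then 1 else 0) *
        (x (Sum.inr (Sum.inr 2)) + 2 * x (Sum.inr (Sum.inr 3)))) := by
  rw [sumIx]
  simp only [cE, cG, c0, c1, c2, c3, t_zB, t_xB, t_AB, tr_B, tr_B0, tr_Bl, add_zero, mul_zero,
    Finset.sum_const_zero, zero_add, nb]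
  ring

lemma inner_ne (k : Fin m) : (0 : Fin (m + 2)) ≠ k.succ.castSucc ∧
    Fin.last (m + 1) ≠ k.succ.castSucc := by
  constructor
  · intro h
    have := congrArg Fin.val h
    simp at this
  · exact (Fin.castSucc_lt_last _).ne'

/-- the values -/
lemma vals (x : Ix m → ℕ) :
    (∀ k : Fin m, ∑ k', x k' * cnt k' (L.B k.succ.castSucc) (n k.succ.castSucc) =
      x (Sum.inl (k.castSucc, true)) + x (Sum.inl (k.succ, false))) ∧
    (∑ k', x k' * cnt k' (L.B 0) (n 0) = x (Sum.inl (0, false)) +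
      (x (Sum.inr (Sum.inr 0)) + 2 * x (Sum.inr (Sum.inr 1)))) ∧
    (∑ k', x k' * cnt k' (L.B (Fin.last (m + 1))) (n (Fin.last (m + 1))) =
      x (Sum.inl (Fin.last m, true)) +
      (x (Sum.inr (Sum.inr 2)) + 2 * x (Sum.inr (Sum.inr 3)))) ∧
    (∑ k', x k' * cnt k' (L.A 0) (L.B 0) = x (Sum.inl (0, false)) +
      x (Sum.inr (Sum.inl (0, false))) +
      (2 * x (Sum.inr (Sum.inr 0)) + x (Sum.inr (Sum.inr 1)))) ∧
    (∑ k', x k' * cnt k' (L.A (Fin.last (m + 1))) (L.B (Fin.last (m + 1))) =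
      x (Sum.inl (Fin.last m, true)) + x (Sum.inr (Sum.inl (Fin.last m, true))) +
      (2 * x (Sum.inr (Sum.inr 2)) + x (Sum.inr (Sum.inr 3)))) := by
  have hl : Fin.last (m + 1) ≠ 0 := last_ne
  refine ⟨?_, ?_, ?_, ?_, ?_⟩
  · intro k
    rw [ev_B, if_neg (inner_ne k).1, if_neg (inner_ne k).2,
      pickm (fun i s => x (Sum.inl (i, s))) k (fun j => if j = k.succ.castSucc then 1 else 0)
        (fun _ => rfl)]
    ring
  · rw [ev_B, if_pos rfl, if_neg hl,
      pick0 (fun i s => x (Sum.inl (i, s))) (fun _ _ => (L.z, L.z))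
        (fun j => if j = 0 then 1 else 0) (fun _ => rfl)]
    ring
  · rw [ev_B, if_pos rfl, if_neg hl.symm,
      pickl (fun i s => x (Sum.inl (i, s))) (fun j => if j = Fin.last (m + 1) then 1 else 0)
        (fun _ => rfl)]
    ring
  · rw [ev_A, if_pos rfl, if_neg hl,
      pick0 (fun i s => x (Sum.inl (i, s))) (fun _ _ => (L.z, L.z))
        (fun j => if j = 0 then 1 else 0) (fun _ => rfl),
      pick0 (fun i s => x (Sum.inr (Sum.inl (i, s)))) (fun _ _ => (L.z, L.z))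
        (fun j => if j = 0 then 1 else 0) (fun _ => rfl)]
    ring
  · rw [ev_A, if_pos rfl, if_neg hl.symm,
      pickl (fun i s => x (Sum.inl (i, s))) (fun j => if j = Fin.last (m + 1) then 1 else 0)
        (fun _ => rfl),
      pickl (fun i s => x (Sum.inr (Sum.inl (i, s))))
        (fun j => if j = Fin.last (m + 1) then 1 else 0) (fun _ => rfl)]
    ring

/-- The solutions. -/
theorem system (x : Ix m → ℕ)
    (h : ∀ a b, E a b → ∑ k, x k * cnt k a b = ∑ k, U k * cnt k a b) : x = U ∨ x = V := by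
  have h1 : ∀ i, x (Sum.inr (Sum.inl (i, true))) + x (Sum.inr (Sum.inl (i, false))) = 3 := by
    intro i
    have := h _ _ (E.zx i)
    rw [ev_z, ev_z] at this
    rw [this]; rfl
  have h2 : ∀ i s, x (Sum.inl (i, s)) + x (Sum.inr (Sum.inl (i, s))) = 3 := by
    intro i s
    have := h _ _ (E_xn i s)
    rw [ev_x, ev_x] at this
    rw [this]
    cases s <;> rfl
  obtain ⟨x3, x4, x5, x6, x7⟩ := vals x
  obtain ⟨u3, u4, u5, u6, u7⟩ := vals (m := m) U
  have h3 : ∀ k : Fin m, x (Sum.inl (k.castSucc, true)) + x (Sum.inl (k.succ, false)) = 3 := by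
    intro k
    have := h _ _ (E.bn k.succ.castSucc)
    rw [x3, u3] at this
    rw [this]; rfl
  have h4 := h _ _ (E.bn 0)
  rw [x4, u4] at h4
  have h5 := h _ _ (E.bn (Fin.last (m + 1)))
  rw [x5, u5] at h5
  have h6 := h _ _ (E.ab 0)
  rw [x6, u6] at h6
  have h7 := h _ _ (E.ab (Fin.last (m + 1)))
  rw [x7, u7] at h7
  simp only [U] at h4 h5 h6 h7
  simp at h4 h5 h6 h7
  have hg : ∀ i : Fin (m + 1), x (Sum.inr (Sum.inl (i, false))) =
      x (Sum.inr (Sum.inl (0, false))) := by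
    intro i
    induction i using Fin.induction with
    | zero => rfl
    | succ k ih =>
      have a1 := h3 k
      have a2 := h2 k.succ false
      have a3 := h2 k.castSucc true
      have a4 := h1 k.castSucc
      omega
  have g0 := h1 0
  have g1 := h2 0 false
  have g2 := h1 (Fin.last m)
  have g3 := h2 (Fin.last m) true
  have g4 := hg (Fin.last m)
  have hcase : (x (Sum.inr (Sum.inl (0, false))) = 0 ∧ x (Sum.inr (Sum.inr 0)) = 1 ∧
      x (Sum.inr (Sum.inr 1)) = 0 ∧ x (Sum.inr (Sum.inr 2)) = 0 ∧ x (Sum.inr (Sum.inr 3)) = 2) ∨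
      (x (Sum.inr (Sum.inl (0, false))) = 3 ∧ x (Sum.inr (Sum.inr 0)) = 0 ∧
      x (Sum.inr (Sum.inr 1)) = 2 ∧ x (Sum.inr (Sum.inr 2)) = 1 ∧
        x (Sum.inr (Sum.inr 3)) = 0) := by
    omega
  rcases hcase with ⟨c0, c1, c2, c3, c4⟩ | ⟨c0, c1, c2, c3, c4⟩
  · left
    funext k
    rcases k with ⟨i, s⟩ | ⟨i, s⟩ | k
    · have b1 := hg i
      have b2 := h1 i
      have b3 := h2 i s
      cases s
      · change x (Sum.inl (i, false)) = 3
        omega
      · change x (Sum.inl (i, true)) = 0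
        omega
    · have b1 := hg i
      have b2 := h1 i
      cases s
      · change x (Sum.inr (Sum.inl (i, false))) = 0
        omega
      · change x (Sum.inr (Sum.inl (i, true))) = 3
        omega
    · fin_cases k
      · exact c1
      · exact c2
      · exact c3
      · exact c4
  · right
    funext k
    rcases k with ⟨i, s⟩ | ⟨i, s⟩ | k
    · have b1 := hg i
      have b2 := h1 i
      have b3 := h2 i s
      cases s
      · change x (Sum.inl (i, false)) = 0
        omega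
      · change x (Sum.inl (i, true)) = 3
        omega
    · have b1 := hg i
      have b2 := h1 i
      cases s
      · change x (Sum.inr (Sum.inl (i, false))) = 3
        omega
      · change x (Sum.inr (Sum.inl (i, true))) = 0
        omega
    · fin_cases k
      · exact c1
      · exact c2
      · exact c3
      · exact c4

end Pool.Agent.Y359.TM.Four
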