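import Pool.Agent.Y359.TM.Four

set_option autoImplicit false

/-!
# The linear system for words of length four
-/

namespace Pool.Agent.Y359.TM.Four

open Finset Pool.Agent.H609R3

variable {m : ℕ}

/-- transition counts of the words, in letters -/
def cnt (k : Ix m) (a b : L m) : ℕ :=
  (if lw k 0 = a ∧ lw k 1 = b then 1 else 0) + (if lw k 1 = a ∧ lw k 2 = b then 1 else 0) +
    (if lw k 2 = a ∧ lw k 3 = b then 1 else 0)

/-- one transition -/
def tr (a' b' a b : L m) : ℕ := if a' = a ∧ b' = b then 1 else 0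

lemma cE (i : Fin (m + 1)) (s : Bool) (a b : L m) : cnt (Sum.inl (i, s)) a b =
    tr (L.x i) (L.A (nb i s)) a b + tr (L.A (nb i s)) (L.B (nb i s)) a b +
      tr (L.B (nb i s)) (n (nb i s)) a b := rfl

lemma cG (i : Fin (m + 1)) (s : Bool) (a b : L m) : cnt (Sum.inr (Sum.inl (i, s))) a b =
    tr L.z (L.x i) a b + tr (L.x i) (L.A (nb i s)) a b +
      tr (L.A (nb i s)) (L.B (nb i s)) a b := rfl

lemma c0 (a b : L m) : cnt (Sum.inr (Sum.inr 0)) a b =
    tr (L.A 0) (L.B 0) a b + tr (L.B 0) (L.A 0) a b + tr (L.A 0) (L.B 0) a b := rfl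

lemma c1 (a b : L m) : cnt (Sum.inr (Sum.inr 1)) a b =
    tr (L.B 0) (L.A 0) a b + tr (L.A 0) (L.B 0) a b + tr (L.B 0) (L.A 0) a b := rfl

lemma c2 (a b : L m) : cnt (Sum.inr (Sum.inr 2)) a b =
    tr (L.A (Fin.last (m + 1))) (L.B (Fin.last (m + 1))) a b +
      tr (L.B (Fin.last (m + 1))) (L.A (Fin.last (m + 1))) a b +
      tr (L.A (Fin.last (m + 1))) (L.B (Fin.last (m + 1))) a b := rfl

lemma c3 (a b : L m) : cnt (Sum.inr (Sum.inr 3)) a b =
    tr (L.B (Fin.last (m + 1))) (L.A (Fin.last (m + 1))) a b +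
      tr (L.A (Fin.last (m + 1))) (L.B (Fin.last (m + 1))) a b +
      tr (L.B (Fin.last (m + 1))) (L.A (Fin.last (m + 1))) a b := rfl

lemma sumIx (F : Ix m → ℕ) : ∑ k, F k =
    ∑ i : Fin (m + 1), (F (Sum.inl (i, true)) + F (Sum.inl (i, false))) +
    (∑ i : Fin (m + 1), (F (Sum.inr (Sum.inl (i, true))) + F (Sum.inr (Sum.inl (i, false)))) +
    (F (Sum.inr (Sum.inr 0)) + F (Sum.inr (Sum.inr 1)) + F (Sum.inr (Sum.inr 2)) +
      F (Sum.inr (Sum.inr 3)))) := by
  rw [Fintype.sum_sum_type, Fintype.sum_sum_type, Fintype.sum_prod_type, Fintype.sum_prod_type,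
    Fin.sum_univ_four]
  simp only [Fintype.sum_bool]

/-- multiplicities of the first element -/
def U : Ix m → ℕ
  | Sum.inl (_, s) => if s then 0 else 3
  | Sum.inr (Sum.inl (_, s)) => if s then 3 else 0
  | Sum.inr (Sum.inr k) => (![1, 0, 0, 2] : Fin 4 → ℕ) k

/-- multiplicities of the second element -/
def V : Ix m → ℕ
  | Sum.inl (_, s) => if s then 3 else 0
  | Sum.inr (Sum.inl (_, s)) => if s then 0 else 3
  | Sum.inr (Sum.inr k) => (![0, 2, 1, 0] : Fin 4 → ℕ) k

lemma sum_U : ∑ k : Ix m, U k = 6 * m + 9 := by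
  rw [sumIx]
  simp [U]
  ring

lemma sum_V : ∑ k : Ix m, V k = 6 * m + 9 := by
  rw [sumIx]
  simp [V]
  ring

lemma UV_disj (k : Ix m) : U k = 0 ∨ V k = 0 := by
  rcases k with ⟨i, s⟩ | ⟨i, s⟩ | k
  · cases s <;> simp [U, V]
  · cases s <;> simp [U, V]
  · fin_cases k <;> simp [U, V]

/-- The two vectors have the same counts. -/
lemma UV_counts (a b : L m) : ∑ k, U k * cnt k a b = ∑ k, V k * cnt k a b := by
  rw [sumIx, sumIx]
  simp only [cE, cG, c0, c1, c2, c3, nb]
  have u0 : (U (Sum.inr (Sum.inr 0) : Ix m)) = 1 := rfl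
  have u1 : (U (Sum.inr (Sum.inr 1) : Ix m)) = 0 := rfl
  have u2 : (U (Sum.inr (Sum.inr 2) : Ix m)) = 0 := rfl
  have u3 : (U (Sum.inr (Sum.inr 3) : Ix m)) = 2 := rfl
  have v0 : (V (Sum.inr (Sum.inr 0) : Ix m)) = 0 := rfl
  have v1 : (V (Sum.inr (Sum.inr 1) : Ix m)) = 2 := rfl
  have v2 : (V (Sum.inr (Sum.inr 2) : Ix m)) = 1 := rfl
  have v3 : (V (Sum.inr (Sum.inr 3) : Ix m)) = 0 := rfl
  have w1 : ∀ i : Fin (m + 1), U (Sum.inl (i, true) : Ix m) = 0 := fun _ => rfl
  have w2 : ∀ i : Fin (m + 1), U (Sum.inl (i, false) : Ix m) = 3 := fun _ => rfl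
  have w3 : ∀ i : Fin (m + 1), U (Sum.inr (Sum.inl (i, true)) : Ix m) = 3 := fun _ => rfl
  have w4 : ∀ i : Fin (m + 1), U (Sum.inr (Sum.inl (i, false)) : Ix m) = 0 := fun _ => rfl
  have y1 : ∀ i : Fin (m + 1), V (Sum.inl (i, true) : Ix m) = 3 := fun _ => rfl
  have y2 : ∀ i : Fin (m + 1), V (Sum.inl (i, false) : Ix m) = 0 := fun _ => rfl
  have y3 : ∀ i : Fin (m + 1), V (Sum.inr (Sum.inl (i, true)) : Ix m) = 0 := fun _ => rfl
  have y4 : ∀ i : Fin (m + 1), V (Sum.inr (Sum.inl (i, false)) : Ix m) = 3 := fun _ => rfl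
  simp only [u0, u1, u2, u3, v0, v1, v2, v3, w1, w2, w3, w4, y1, y2, y3, y4, zero_mul, zero_add,
    add_zero, one_mul]
  have key := (Fin.sum_univ_castSucc (fun j : Fin (m + 2) => tr (L.B j) (n j) a b)).symm.trans
    (Fin.sum_univ_succ (fun j : Fin (m + 2) => tr (L.B j) (n j) a b))
  simp only [n_zero, n_last] at key
  simp only [← Finset.mul_sum, Finset.sum_add_distrib]
  omega

/-- sum over the neighbours of `j` -/
lemma pick0 (y : Fin (m + 1) → Bool → ℕ) (t : ℕ → ℕ → L m × L m) (P : Fin (m + 2) → ℕ)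
    (hP : ∀ j, P j = if j = 0 then 1 else 0) :
    ∑ i : Fin (m + 1), (y i true * P i.succ + y i false * P i.castSucc) = y 0 false := by
  rw [Finset.sum_eq_single 0]
  · rw [hP, hP]
    simp
  · intro i _ hi
    rw [hP, hP, if_neg (Fin.succ_ne_zero i), if_neg]
    · ring
    · intro h
      apply hi
      apply Fin.ext
      have := congrArg Fin.val h
      simpa using this
  · simp

lemma pickl (y : Fin (m + 1) → Bool → ℕ) (P : Fin (m + 2) → ℕ)
    (hP : ∀ j, P j = if j = Fin.last (m + 1) then 1 else 0) :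
    ∑ i : Fin (m + 1), (y i true * P i.succ + y i false * P i.castSucc) =
      y (Fin.last m) true := by
  have hc : ∀ i : Fin (m + 1), i.castSucc ≠ Fin.last (m + 1) := fun i =>
    (Fin.castSucc_lt_last i).ne
  rw [Finset.sum_eq_single (Fin.last m)]
  · rw [hP, hP, if_neg (hc _), if_pos (Fin.succ_last m)]
    ring
  · intro i _ hi
    rw [hP, hP, if_neg (hc _), if_neg]
    · ring
    · intro h
      apply hi
      rw [← Fin.succ_last] at h
      exact Fin.succ_injective _ h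
  · simp

lemma pickm (y : Fin (m + 1) → Bool → ℕ) (k : Fin m) (P : Fin (m + 2) → ℕ)
    (hP : ∀ j, P j = if j = k.succ.castSucc then 1 else 0) :
    ∑ i : Fin (m + 1), (y i true * P i.succ + y i false * P i.castSucc) =
      y k.castSucc true + y k.succ false := by
  rw [Finset.sum_add_distrib]
  congr 1
  · rw [Finset.sum_eq_single k.castSucc]
    · rw [hP, if_pos (Fin.succ_castSucc k)]
      ring
    · intro i _ hi
      rw [hP, if_neg]
      · ring
      · intro h
        apply hi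
        rw [← Fin.succ_castSucc] at h
        exact Fin.succ_injective _ h
    · simp
  · rw [Finset.sum_eq_single k.succ]
    · rw [hP, if_pos rfl]
      ring
    · intro i _ hi
      rw [hP, if_neg]
      · ring
      · intro h
        exact hi (Fin.castSucc_injective _ h)
    · simp

lemma n_ne (j : Fin (m + 2)) (l : L m) (h : (∃ i, l = L.x i) ∨ (∃ i, l = L.B i) ∨ l = L.z) :
    n j ≠ l := by
  unfold n
  rcases h with ⟨i, rfl⟩ | ⟨i, rfl⟩ | rfl <;> split_ifs <;> simp

end Pool.Agent.Y359.TM.Four
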