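import Pool.Agent.H609R3.ToricMC

set_option autoImplicit false

/-!
# The twelve words of odd length

The digraph has the nine transitions `0 → 4`, `4 → 2`, `4 → 3`, `4 → 5`, `4 → 1`, `2 ⇄ 3`,
`1 ⇄ 5`.  It has exactly twelve walks with `T` vertices, `T ≥ 4`.
-/

namespace Pool.Agent.Y359.TM

open Finset Pool.Agent.H609R3

/-- The nine transitions used. -/
def hE (p q : Fin 6) : Bool :=
  (p == 0 && q == 4) || (p == 4 && q == 2) || (p == 4 && q == 3) || (p == 4 && q == 5) ||
  (p == 4 && q == 1) || (p == 2 && q == 3) ||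
  (p == 3 && q == 2) || (p == 1 && q == 5) || (p == 5 && q == 1)

/-- The twelve words, as functions of time, with letters in `Fin 6`. -/
def f (i : Fin 12) (n : ℕ) : Fin 6 :=
  match i with
  | 0 => if n % 2 = 0 then 2 else 3
  | 1 => if n % 2 = 0 then 3 else 2
  | 2 => if n % 2 = 0 then 5 else 1
  | 3 => if n % 2 = 0 then 1 else 5
  | 4 => if n = 0 then 4 else if n % 2 = 0 then 3 else 2
  | 5 => if n = 0 then 4 else if n % 2 = 0 then 2 else 3
  | 6 => if n = 0 then 4 else if n % 2 = 0 then 1 else 5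
  | 7 => if n = 0 then 4 else if n % 2 = 0 then 5 else 1
  | 8 => if n = 0 then 0 else if n = 1 then 4 else if n % 2 = 0 then 2 else 3
  | 9 => if n = 0 then 0 else if n = 1 then 4 else if n % 2 = 0 then 3 else 2
  | 10 => if n = 0 then 0 else if n = 1 then 4 else if n % 2 = 0 then 5 else 1
  | 11 => if n = 0 then 0 else if n = 1 then 4 else if n % 2 = 0 then 1 else 5

lemma f_add_two (i : Fin 12) (n : ℕ) : f i (n + 2 + 2) = f i (n + 2) := by
  have h : (n + 2 + 2) % 2 = (n + 2) % 2 := by omega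
  fin_cases i <;> simp [f, h]

lemma f_even (i : Fin 12) (k : ℕ) : f i (2 * k + 2) = f i 2 := by
  induction k with
  | zero => rfl
  | succ k ih =>
    have : 2 * (k + 1) + 2 = 2 * k + 2 + 2 := by ring
    rw [this, f_add_two, ih]

lemma f_odd (i : Fin 12) (k : ℕ) : f i (2 * k + 3) = f i 3 := by
  induction k with
  | zero => rfl
  | succ k ih =>
    have : 2 * (k + 1) + 3 = (2 * k + 1) + 2 + 2 := by ring
    rw [this, f_add_two]
    have : (2 * k + 1) + 2 = 2 * k + 3 := by ring
    rw [this, ih]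

lemma f_step (i : Fin 12) (n : ℕ) : hE (f i n) (f i (n + 1)) = true := by
  rcases Nat.lt_or_ge n 2 with h | h
  · have : n = 0 ∨ n = 1 := by omega
    rcases this with rfl | rfl <;> revert i <;> decide
  · obtain ⟨m, rfl | rfl⟩ : ∃ m, n = 2 * m + 2 ∨ n = 2 * m + 3 := by
      refine ⟨(n - 2) / 2, ?_⟩
      omega
    · have : 2 * m + 2 + 1 = 2 * m + 3 := by ring
      rw [this, f_even, f_odd]; revert i; decide
    · have : 2 * m + 3 + 1 = 2 * (m + 1) + 2 := by ring
      rw [this, f_odd, f_even]; revert i; decide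

lemma hE_ne {p q : Fin 6} (h : hE p q = true) : p ≠ q := by
  revert p q; decide

/-- Transition counts of the twelve words (letters in `Fin 6`). -/
def N (i : Fin 12) (m : ℕ) (p q : Fin 6) : ℕ :=
  ((range m).filter (fun t => f i t = p ∧ f i (t + 1) = q)).card

/-- The increment of `N` over one period. -/
def dl (i : Fin 12) (p q : Fin 6) : ℕ :=
  (if f i 3 = p ∧ f i 2 = q then 1 else 0) + (if f i 2 = p ∧ f i 3 = q then 1 else 0)

lemma N_succ (i : Fin 12) (m : ℕ) (p q : Fin 6) :
    N i (m + 1) p q = N i m p q + (if f i m = p ∧ f i (m + 1) = q then 1 else 0) := by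
  unfold N
  rw [Finset.range_add_one, Finset.filter_insert]
  split_ifs with h
  · rw [Finset.card_insert_of_notMem (by simp)]
  · simp

lemma N_eq (i : Fin 12) (K : ℕ) (p q : Fin 6) :
    N i (2 * K + 4) p q = N i 4 p q + K * dl i p q := by
  induction K with
  | zero => simp
  | succ K ih =>
    have e1 : 2 * (K + 1) + 4 = (2 * K + 4) + 1 + 1 := by ring
    rw [e1, N_succ, N_succ, ih]
    have e2 : 2 * K + 4 + 1 = 2 * (K + 1) + 3 := by ring
    have e3 : 2 * K + 4 + 1 + 1 = 2 * (K + 2) + 2 := by ring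
    have e4 : 2 * K + 4 = 2 * (K + 1) + 2 := by ring
    rw [e3, e2, e4, f_odd, f_even, f_even]
    unfold dl
    ring

/-! ### The twelve words over `Fin S` -/

section words

variable {S : ℕ} (hS : 6 ≤ S)

/-- The twelve words over `Fin S`, of length `T`. -/
def ew (T : ℕ) (i : Fin 12) : Word S T :=
  ⟨fun t => c hS (f i t.1), fun t _ h => hE_ne (f_step i t) (c_inj hS h)⟩

lemma transCount_ew {T : ℕ} (i : Fin 12) (p q : Fin 6) :
    transCount (ew hS T i) (c hS p, c hS q) = N i (T - 1) p q := by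
  rw [transCount_eq_card (ew hS T i) (fun n => c hS (f i n)) (fun t h => rfl)]
  unfold N
  congr 1
  ext t
  simp [(c_inj hS).eq_iff]

lemma transCount_ew_zero {T : ℕ} (i : Fin 12) (e : Fin S × Fin S)
    (he : ∀ p q : Fin 6, hE p q = true → e ≠ (c hS p, c hS q)) :
    transCount (ew hS T i) e = 0 := by
  rw [transCount_eq_card (ew hS T i) (fun n => c hS (f i n)) (fun t h => rfl)]
  rw [Finset.card_eq_zero, Finset.filter_eq_empty_iff]
  intro t _ h
  exact he _ _ (f_step i t) (Prod.ext h.1.symm h.2.symm)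

/-- the deterministic continuation -/
lemma next_unique {a b : Fin 6} (h : hE a b = true) (ha : a ≠ 4) :
    b = (if a = 0 then 4 else if a = 2 then 3 else if a = 3 then 2 else if a = 1 then 5
      else 1) := by
  revert a b; decide

/-- Classification of sequences all of whose transitions are among the nine. -/
lemma classify (T : ℕ) (hT : 4 ≤ T) (g : ℕ → Fin 6)
    (hg : ∀ t, t + 1 < T → hE (g t) (g (t + 1)) = true) :
    ∃ i : Fin 12, ∀ t, t < T → g t = f i t := by
  have key : ∀ i : Fin 12, ∀ s, s < T → (∀ t, t ≤ s → g t = f i t) →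
      (∀ t, s ≤ t → f i t ≠ 4) → ∀ t, t < T → g t = f i t := by
    intro i s hs h0 h4 t
    induction t with
    | zero => intro _; exact h0 0 (Nat.zero_le _)
    | succ t ih =>
      intro ht
      rcases Nat.lt_or_ge t s with h | h
      · exact h0 _ h
      · have h1 := ih (by omega)
        have h2 := hg t ht
        rw [h1] at h2
        have h3 := next_unique h2 (h4 t h)
        have h5 := next_unique (f_step i t) (h4 t h)
        rw [h3, h5]
  have n4 : ∀ i : Fin 12, ∀ t, 2 ≤ t → f i t ≠ 4 := by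
    intro i t ht
    obtain ⟨m, rfl | rfl⟩ : ∃ m, t = 2 * m + 2 ∨ t = 2 * m + 3 := ⟨(t - 2) / 2, by omega⟩
    · rw [f_even]; revert i; decide
    · rw [f_odd]; revert i; decide
  have h01 := hg 0 (by omega)
  have h12 := hg 1 (by omega)
  have fin : ∀ i : Fin 12, g 0 = f i 0 → g 1 = f i 1 → g 2 = f i 2 →
      ∃ i : Fin 12, ∀ t, t < T → g t = f i t := by
    intro i a0 a1 a2
    refine ⟨i, key i 2 (by omega) ?_ (n4 i)⟩
    intro t ht
    have : t = 0 ∨ t = 1 ∨ t = 2 := by omega
    rcases this with rfl | rfl | rfl <;> assumption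
  have all : ∀ a0 a1 a2 : Fin 6, hE a0 a1 = true → hE a1 a2 = true →
      ∃ i : Fin 12, a0 = f i 0 ∧ a1 = f i 1 ∧ a2 = f i 2 := by decide
  obtain ⟨i, b0, b1, b2⟩ := all _ _ _ h01 h12
  exact fin i b0 b1 b2

/-- A word all of whose transitions are among the nine is one of the twelve words. -/
lemma word_classify {T : ℕ} (hT : 4 ≤ T) (w : Word S T)
    (hw : ∀ (t : ℕ) (h : t + 1 < T), ∃ p q : Fin 6, hE p q = true ∧
      w.1 ⟨t, Nat.lt_of_succ_lt h⟩ = c hS p ∧ w.1 ⟨t + 1, h⟩ = c hS q) :
    ∃ i, w = ew hS T i := by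
  have h1 : ∀ (t : ℕ), ∃ p : Fin 6, ∀ h : t < T, w.1 ⟨t, h⟩ = c hS p := by
    intro t
    by_cases h : t < T
    · by_cases h' : t + 1 < T
      · obtain ⟨p, q, _, hp, _⟩ := hw t h'
        exact ⟨p, fun _ => hp⟩
      · have h2 : (t - 1) + 1 < T := by omega
        obtain ⟨p, q, _, _, hq⟩ := hw (t - 1) h2
        refine ⟨q, fun _ => ?_⟩
        have : t - 1 + 1 = t := by omega
        simpa [this] using hq
    · exact ⟨0, fun h' => absurd h' h⟩
  choose g hg using h1
  have h2 : ∀ t, t + 1 < T → hE (g t) (g (t + 1)) = true := by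
    intro t ht
    obtain ⟨p, q, hpq, hp, hq⟩ := hw t ht
    rw [hg t (by omega)] at hp
    rw [hg (t + 1) ht] at hq
    rw [c_inj hS hp, c_inj hS hq]
    exact hpq
  obtain ⟨i, hi⟩ := classify T hT g h2
  refine ⟨i, ?_⟩
  apply Subtype.ext
  funext t
  rw [hg t.1 t.2, hi t.1 t.2]
  rfl

lemma ew_inj {T : ℕ} (hT : 4 ≤ T) : Function.Injective (ew hS T) := by
  intro i j h
  have h' : ∀ t, t < T → f i t = f j t := by
    intro t ht
    have := congrArg (fun w : Word S T => w.1 ⟨t, ht⟩) h
    exact c_inj hS this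
  have h0 := h' 0 (by omega)
  have h1 := h' 1 (by omega)
  have h2 := h' 2 (by omega)
  revert i j
  have : ∀ i j : Fin 12, f i 0 = f j 0 → f i 1 = f j 1 → f i 2 = f j 2 → i = j := by decide
  intro i j _ _ h0 h1 h2
  exact this i j h0 h1 h2

end words

end Pool.Agent.Y359.TM
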